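import Pool.Agent.Helper64.RB.Frac

/-!
# The fractional certificate for intervals `{0, …, k}`, `3k ≤ p`

Items are pairs `(n, a)`, `n < 2p`, `a ∈ ZMod p`. Each leg has two families of orders (progressions
of step `±1` or `±2`), each item has for each leg a family and a level. In each item two of the
three legs alone exclude all lines, the third is free.
-/

namespace Helper64.RB

open Finset

/-- family and level of the first leg in item `n` -/
def leg₁ (p k n : ℕ) : Bool × ℕ :=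
  if n < p - k then (false, n)
  else if n < 2 * (p - k) then (if n - (p - k) < k then (false, n) else (true, k + (n - (p - k))))
  else (true, n - 2 * (p - k))

/-- family and level of the second leg in item `n` -/
def leg₂ (p k n : ℕ) : Bool × ℕ :=
  if n < p - k then (false, p - k - 1 - n)
  else if n < 2 * (p - k) then (true, 2 * (p - k) - 1 - n)
  else (if n - 2 * (p - k) < k then (false, n - (p - k)) else (true, n - p))

/-- family and level of the third leg in item `n` -/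
def leg₃ (p k n : ℕ) : Bool × ℕ :=
  if n < p - k then (if n < k then (false, p - k + n) else (true, k + n))
  else if n < 2 * (p - k) then (false, n - (p - k))
  else (true, 2 * p - 1 - n)

theorem leg₁_lt {p k n : ℕ} (hk : 1 ≤ k) (h : 3 * k ≤ p) (hn : n < 2 * p) : (leg₁ p k n).2 < p := by
  unfold leg₁; split_ifs <;> simp <;> omega

theorem leg₂_lt {p k n : ℕ} (hk : 1 ≤ k) (h : 3 * k ≤ p) (hn : n < 2 * p) : (leg₂ p k n).2 < p := by
  unfold leg₂; split_ifs <;> simp <;> omega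

theorem leg₃_lt {p k n : ℕ} (hk : 1 ≤ k) (h : 3 * k ≤ p) (hn : n < 2 * p) : (leg₃ p k n).2 < p := by
  unfold leg₃; split_ifs <;> simp <;> omega

theorem leg₁_bij {p k : ℕ} (hk : 1 ≤ k) (h : 3 * k ≤ p) (c : Bool) (v : ℕ) (hv : v < p) :
    ∃ n, n < 2 * p ∧ ∀ n', n' < 2 * p → (leg₁ p k n' = (c, v) ↔ n' = n) := by
  cases c
  · refine ⟨v, by omega, fun n' hn' => ?_⟩
    unfold leg₁; split_ifs <;> simp <;> omega
  · refine ⟨if v < 2 * k then 2 * (p - k) + v else p - k + v - k, by split_ifs <;> omega,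
      fun n' hn' => ?_⟩
    unfold leg₁; split_ifs <;> simp <;> omega

theorem leg₂_bij {p k : ℕ} (hk : 1 ≤ k) (h : 3 * k ≤ p) (c : Bool) (v : ℕ) (hv : v < p) :
    ∃ n, n < 2 * p ∧ ∀ n', n' < 2 * p → (leg₂ p k n' = (c, v) ↔ n' = n) := by
  cases c
  · refine ⟨if v < p - k then p - k - 1 - v else p - k + v, by split_ifs <;> omega,
      fun n' hn' => ?_⟩
    unfold leg₂; split_ifs <;> simp <;> omega
  · refine ⟨if v < p - k then 2 * (p - k) - 1 - v else p + v, by split_ifs <;> omega,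
      fun n' hn' => ?_⟩
    unfold leg₂; split_ifs <;> simp <;> omega

theorem leg₃_bij {p k : ℕ} (hk : 1 ≤ k) (h : 3 * k ≤ p) (c : Bool) (v : ℕ) (hv : v < p) :
    ∃ n, n < 2 * p ∧ ∀ n', n' < 2 * p → (leg₃ p k n' = (c, v) ↔ n' = n) := by
  cases c
  · refine ⟨if v < p - k then p - k + v else v - (p - k), by split_ifs <;> omega,
      fun n' hn' => ?_⟩
    unfold leg₃; split_ifs <;> simp <;> omega
  · refine ⟨if v < 2 * k then 2 * p - 1 - v else v - k, by split_ifs <;> omega,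
      fun n' hn' => ?_⟩
    unfold leg₃; split_ifs <;> simp <;> omega

/-- the order with top `q.2` descending by steps `s q.1`, where `r q.1 * s q.1 = 1` -/
def okey {p : ℕ} (r : Bool → ZMod p) (q : Bool × ZMod p) (x : ZMod p) : ℤ :=
  -((r q.1 * (q.2 - x)).val : ℤ)

theorem okey_up {p : ℕ} [NeZero p] (r s : Bool → ZMod p) (hrs : ∀ c, r c * s c = 1) (c : Bool)
    (v : ℕ) (hv : v < p) (a x : ZMod p)
    (h : okey r (c, a + v * s c) a ≤ okey r (c, a + v * s c) x) :
    ∃ i : ℕ, i ≤ v ∧ x = a + i * s c := by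
  unfold okey at h
  simp only [neg_le_neg_iff, Nat.cast_le] at h
  have e1 : r c * (a + v * s c - a) = v := by
    have := hrs c
    calc r c * (a + v * s c - a) = v * (r c * s c) := by ring
      _ = v := by rw [this, mul_one]
  rw [e1, ZMod.val_natCast_of_lt hv] at h
  set u := r c * (a + v * s c - x) with hu
  refine ⟨v - u.val, Nat.sub_le _ _, ?_⟩
  rw [Nat.cast_sub h, ZMod.natCast_zmod_val, hu]
  have := hrs c
  calc x = a + (v * s c - (a + v * s c - x) * 1) := by ring
    _ = a + (v * s c - (a + v * s c - x) * (r c * s c)) := by rw [this]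
    _ = _ := by ring

theorem count_one {p : ℕ} [NeZero p] (r s : Bool → ZMod p) (hrs : ∀ c, r c * s c = 1)
    (leg : ℕ → Bool × ℕ) (hlt : ∀ n, n < 2 * p → (leg n).2 < p)
    (hbij : ∀ (c : Bool) (v : ℕ), v < p →
      ∃ n, n < 2 * p ∧ ∀ n', n' < 2 * p → (leg n' = (c, v) ↔ n' = n))
    (c : ZMod p) (hc : IsUnit c) (q : Bool × ZMod p) (b : ZMod p) :
    Nat.card {i : Fin (2 * p) × ZMod p // ((leg i.1.val).1,
      i.2 + ((leg i.1.val).2 : ZMod p) * s (leg i.1.val).1) = q ∧ c * i.2 = b} = 1 := by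
  obtain ⟨c', hcc⟩ := hc.exists_right_inv
  obtain ⟨q1, T⟩ := q
  set b' := c' * b with hb'
  set v := (r q1 * (T - b')).val with hv
  obtain ⟨n, hn, hn'⟩ := hbij q1 v (ZMod.val_lt _)
  rw [Nat.card_eq_one_iff_unique]
  have hval : (v : ZMod p) * s q1 = T - b' := by
    rw [hv, ZMod.natCast_zmod_val]
    calc r q1 * (T - b') * s q1 = (T - b') * (r q1 * s q1) := by ring
      _ = T - b' := by rw [hrs, mul_one]
  have hcb : ∀ x : ZMod p, c * x = b ↔ x = b' := by
    intro x
    constructor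
    · intro h
      rw [hb', ← h]
      calc x = (c * c') * x := by rw [hcc, one_mul]
        _ = c' * (c * x) := by ring
    · intro h
      rw [h, hb']
      calc c * (c' * b) = (c * c') * b := by ring
        _ = b := by rw [hcc, one_mul]
  have key : ∀ i : Fin (2 * p) × ZMod p, (((leg i.1.val).1,
      i.2 + ((leg i.1.val).2 : ZMod p) * s (leg i.1.val).1) = (q1, T) ∧ c * i.2 = b) →
      i = (⟨n, hn⟩, b') := by
    rintro ⟨⟨m, hm⟩, x⟩ ⟨h1, h2⟩
    rw [hcb] at h2
    simp only [Prod.mk.injEq] at h1 h2 ⊢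
    obtain ⟨h3, h4⟩ := h1
    refine ⟨?_, h2⟩
    rw [Fin.mk.injEq]
    rw [← hn' m hm]
    have h5 : (leg m).2 = v := by
      have h6 : ((leg m).2 : ZMod p) = r q1 * (T - b') := by
        rw [← h4, ← h3]
        subst h2
        calc ((leg m).2 : ZMod p) = (leg m).2 * (r (leg m).1 * s (leg m).1) := by rw [hrs, mul_one]
          _ = _ := by ring
      rw [hv, ← h6, ZMod.val_natCast_of_lt (hlt m hm)]
    exact Prod.ext h3 h5
  refine ⟨⟨fun x y => ?_⟩, ⟨⟨(⟨n, hn⟩, b'), ?_, ?_⟩⟩⟩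
  · exact Subtype.ext ((key _ x.2).trans (key _ y.2).symm)
  · have h7 : leg n = (q1, v) := (hn' n hn).mpr rfl
    simp only [h7, hval, Prod.mk.injEq, true_and]
    ring
  · exact (hcb b').mpr rfl

/-- steps of the two families of the three legs -/
def st₁ (p : ℕ) (c : Bool) : ZMod p := if c then 2 else 1
/-- steps of the two families of the three legs -/
def st₂ (p : ℕ) (c : Bool) : ZMod p := if c then 1 else -1
/-- steps of the two families of the three legs -/
def st₃ (p : ℕ) (c : Bool) : ZMod p := if c then -2 else -1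

theorem leg_iso {p k : ℕ} [NeZero p] (hk : 1 ≤ k) (h : 3 * k ≤ p) {n : ℕ} (hn : n < 2 * p)
    (h2 : IsUnit (2 : ZMod p)) {a x y z : ZMod p} {i₁ i₂ i₃ d : ℕ}
    (hi₁ : i₁ ≤ (leg₁ p k n).2) (hi₂ : i₂ ≤ (leg₂ p k n).2) (hi₃ : i₃ ≤ (leg₃ p k n).2)
    (hd : d ≤ k) (hx : x = a + i₁ * st₁ p (leg₁ p k n).1) (hy : y = a + i₂ * st₂ p (leg₂ p k n).1)
    (hz : z = a + i₃ * st₃ p (leg₃ p k n).1) (hxy : y = x + d) (hxz : z = x + 2 * d) :
    x = a ∧ y = a ∧ z = a := by
  have small : ∀ t : ℕ, t < p → (t : ZMod p) = 0 → t = 0 := by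
    intro t ht h0
    have := (ZMod.natCast_eq_zero_iff t p).mp h0
    exact Nat.eq_zero_of_dvd_of_lt this ht
  by_cases c1 : n < p - k
  · -- legs 1 and 2
    simp only [leg₁, leg₂, c1, if_true] at hi₁ hi₂ hx hy
    simp only [st₁, st₂, Bool.false_eq_true, if_false] at hx hy
    have e : ((i₁ + i₂ + d : ℕ) : ZMod p) = 0 := by
      push_cast
      have : a + (i₂ : ZMod p) * -1 = a + i₁ * 1 + d := by rw [← hy, ← hx, hxy]
      linear_combination -this
    have e0 := small _ (by omega) e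
    have q1 : i₁ = 0 := by omega
    have q2 : d = 0 := by omega
    subst q1 q2
    have hxa : x = a := by rw [hx]; simp
    exact ⟨hxa, by rw [hxy, hxa]; simp, by rw [hxz, hxa]; simp⟩
  · by_cases c2 : n < 2 * (p - k)
    · simp only [leg₂, leg₃, c1, c2, if_true, if_false] at hi₂ hi₃ hy hz
      simp only [st₂, st₃, Bool.false_eq_true, if_false, if_true] at hy hz
      have e : ((i₂ + i₃ + d : ℕ) : ZMod p) = 0 := by
        push_cast
        have : a + (i₃ : ZMod p) * -1 = a + i₂ * 1 + d := by rw [← hy, ← hz, hxy, hxz]; ring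
        linear_combination -this
      have e0 := small _ (by omega) e
      have q1 : i₂ = 0 := by omega
      have q2 : d = 0 := by omega
      subst q1 q2
      have hya : y = a := by rw [hy]; simp
      have hxa : x = a := by rw [← hya, hxy]; simp
      exact ⟨hxa, hya, by rw [hxz, hxa]; simp⟩
    · simp only [leg₁, leg₃, c1, c2, if_false] at hi₁ hi₃ hx hz
      simp only [st₁, st₃, if_true] at hx hz
      have e : ((i₁ + i₃ + d : ℕ) : ZMod p) = 0 := by
        push_cast
        have : a + (i₃ : ZMod p) * -2 = a + i₁ * 2 + 2 * d := by rw [← hz, ← hx, hxz]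
        have h3 : (2 : ZMod p) * ((i₁ : ZMod p) + i₃ + d) = 2 * 0 := by
          linear_combination -this
        exact h2.mul_left_cancel h3
      have e0 := small _ (by omega) e
      have q1 : i₁ = 0 := by omega
      have q2 : d = 0 := by omega
      subst q1 q2
      have hxa : x = a := by rw [hx]; simp
      exact ⟨hxa, by rw [hxy, hxa]; simp, by rw [hxz, hxa]; simp⟩

theorem coup_full {p k : ℕ} [NeZero p] (hk : 1 ≤ k) (h : 3 * k ≤ p) (h2 : IsUnit (2 : ZMod p))
    (c : ZMod p) (hc : IsUnit c) (n : ℕ) (B : Finset (Fin n → ZMod p)) {K : Type*} [Field K]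
    (T : B → B → B → K)
    (hT : ∀ x y z : B, T x y z ≠ 0 → ∀ i, ∃ d : ℕ, d ≤ k ∧ y.1 i = x.1 i + d * c ∧
      z.1 i = x.1 i + 2 * (d * c))
    (hd : ∀ x, T x x x ≠ 0) {r : ℕ} (hs : SliceLe T r) : B.card ≤ r := by
  obtain ⟨g, hg⟩ := h2.exists_right_inv
  obtain ⟨c', hcc⟩ := hc.exists_right_inv
  haveI : NeZero (2 * p) := ⟨by have := NeZero.ne p; omega⟩
  set r₁ : Bool → ZMod p := fun b => if b then g else 1 with hr₁
  set r₂ : Bool → ZMod p := fun b => if b then 1 else -1 with hr₂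
  set r₃ : Bool → ZMod p := fun b => if b then -g else -1 with hr₃
  have hs₁ : ∀ b, r₁ b * st₁ p b = 1 := by
    intro b; cases b <;> simp [hr₁, st₁, mul_comm g, hg]
  have hs₂ : ∀ b, r₂ b * st₂ p b = 1 := by
    intro b; cases b <;> simp [hr₂, st₂]
  have hs₃ : ∀ b, r₃ b * st₃ p b = 1 := by
    intro b; cases b <;> simp [hr₃, st₃, mul_comm g, hg]
  refine frac_full (I := Fin (2 * p) × ZMod p)
    (fun q x => okey r₁ q (c' * x)) (fun q x => okey r₂ q (c' * x)) (fun q x => okey r₃ q (c' * x))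
    (fun x y z => ∃ d : ℕ, d ≤ k ∧ y = x + d * c ∧ z = x + 2 * (d * c))
    (fun i => ((leg₁ p k i.1.val).1, i.2 + ((leg₁ p k i.1.val).2 : ZMod p) *
      st₁ p (leg₁ p k i.1.val).1))
    (fun i => ((leg₂ p k i.1.val).1, i.2 + ((leg₂ p k i.1.val).2 : ZMod p) *
      st₂ p (leg₂ p k i.1.val).1))
    (fun i => ((leg₃ p k i.1.val).1, i.2 + ((leg₃ p k i.1.val).2 : ZMod p) *
      st₃ p (leg₃ p k i.1.val).1))
    (fun i => c * i.2) 1 1 1
    (fun q b => count_one r₁ _ hs₁ (leg₁ p k) (fun n hn => leg₁_lt hk h hn)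
      (leg₁_bij hk h) c hc q b)
    (fun q b => count_one r₂ _ hs₂ (leg₂ p k) (fun n hn => leg₂_lt hk h hn)
      (leg₂_bij hk h) c hc q b)
    (fun q b => count_one r₃ _ hs₃ (leg₃ p k) (fun n hn => leg₃_lt hk h hn)
      (leg₃_bij hk h) c hc q b)
    ?_ n B T hT hd hs
  rintro ⟨⟨m, hm⟩, a⟩ x y z ⟨d, hdk, hxy, hxz⟩ k₁ k₂ k₃
  have hca : ∀ t : ZMod p, c' * (c * t) = t := fun t => by
    calc c' * (c * t) = (c * c') * t := by ring
      _ = t := by rw [hcc, one_mul]
  have hac : ∀ t : ZMod p, c * (c' * t) = t := fun t => by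
    calc c * (c' * t) = (c * c') * t := by ring
      _ = t := by rw [hcc, one_mul]
  simp only [hca] at k₁ k₂ k₃
  obtain ⟨i₁, hi₁, e₁⟩ := okey_up r₁ _ hs₁ _ _ (leg₁_lt hk h hm) _ _ k₁
  obtain ⟨i₂, hi₂, e₂⟩ := okey_up r₂ _ hs₂ _ _ (leg₂_lt hk h hm) _ _ k₂
  obtain ⟨i₃, hi₃, e₃⟩ := okey_up r₃ _ hs₃ _ _ (leg₃_lt hk h hm) _ _ k₃
  have := leg_iso hk h hm h2 hi₁ hi₂ hi₃ hdk e₁ e₂ e₃
    (by rw [hxy]; calc c' * (x + d * c) = c' * x + d * (c * c') := by ring
          _ = _ := by rw [hcc, mul_one])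
    (by rw [hxz]; calc c' * (x + 2 * (d * c)) = c' * x + 2 * (d * (c * c')) := by ring
          _ = _ := by rw [hcc, mul_one])
  refine ⟨?_, ?_, ?_⟩
  · rw [← hac x, this.1]
  · rw [← hac y, this.2.1]
  · rw [← hac z, this.2.2]

end Helper64.RB
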