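import Pool.Agent.Helper64.RB.Tri

/-!
# Choosing the parameters
-/

namespace Helper64.RB.Tri

open Finset

variable {p M n : ℕ}

theorem card_conf [NeZero p] (δ : ZMod p) (l : Ln p n) [DecidablePred fun m => Conf δ l m] :
    (univ.filter fun m : Ln p n => Conf δ l m).card ≤ 3 * 2 ^ n := by
  classical
  have hsub : (univ.filter fun m : Ln p n => Conf δ l m) ⊆
      (univ.image fun f : Fin n → Bool => ((l.1, f) : Ln p n)) ∪
      (univ.image fun f : Fin n → Bool => ((py δ l - wv δ f, f) : Ln p n)) ∪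
      (univ.image fun f : Fin n → Bool => ((pz δ l - wv δ f - wv δ f, f) : Ln p n)) := by
    intro m hm
    obtain ⟨-, h⟩ := (mem_filter.mp hm).2
    simp only [mem_union, mem_image, mem_univ, true_and]
    rcases h with h | h | h
    · exact Or.inl (Or.inl ⟨m.2, Prod.ext h rfl⟩)
    · refine Or.inl (Or.inr ⟨m.2, Prod.ext ?_ rfl⟩)
      show py δ l - wv δ m.2 = m.1
      rw [h]; simp only [py, add_sub_cancel_right]
    · refine Or.inr ⟨m.2, Prod.ext ?_ rfl⟩
      show pz δ l - wv δ m.2 - wv δ m.2 = m.1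
      rw [h]; simp only [pz, add_sub_cancel_right]
  have h1 : ∀ f : (Fin n → Bool) → Ln p n, (univ.image f).card ≤ 2 ^ n := fun f =>
    card_image_le.trans (by simp)
  calc (univ.filter fun m : Ln p n => Conf δ l m).card ≤ _ := card_le_card hsub
    _ ≤ 2 ^ n + 2 ^ n + 2 ^ n :=
        (card_union_le _ _).trans (Nat.add_le_add ((card_union_le _ _).trans
          (Nat.add_le_add (h1 _) (h1 _))) (h1 _))
    _ = 3 * 2 ^ n := by ring

theorem exists_family [Fact M.Prime] [NeZero p] (hp : ∀ a : ZMod p, a + a = 0 → a = 0)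
    (hM2 : (2 : ZMod M) ≠ 0) (hpM : p ≤ M) (hM : 6 * 2 ^ n ≤ M) {δ : ZMod p} (hδ : δ ≠ 0)
    (N : ℕ) (hN : 2 * N ≤ M + 1) (S : Finset ℕ) (hS : S ⊆ range N)
    (hS3 : ThreeAPFree (S : Set ℕ)) :
    ∃ F : Finset (Ln p n), (2 * p) ^ n * S.card ≤ 2 * M ^ 2 * F.card ∧
      ∀ l₁ ∈ F, ∀ l₂ ∈ F, ∀ l₃ ∈ F, ∀ l : Ln p n, l.1 = l₁.1 → py δ l = py δ l₂ →
        pz δ l = pz δ l₃ → l = l₁ ∧ l = l₂ ∧ l = l₃ := by
  classical
  haveI : NeZero M := ⟨(Fact.out : M.Prime).ne_zero⟩
  have hMpos : 0 < M := (Fact.out : M.Prime).pos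
  have hM2' : 2 ≤ M := (Fact.out : M.Prime).two_le
  set Ω := (Fin n → ZMod M) × ZMod M × ZMod M with hΩ
  have hΩc : Fintype.card Ω = M ^ n * M ^ 2 := by
    simp only [hΩ, Fintype.card_prod, Fintype.card_fun, ZMod.card, Fintype.card_fin]
    ring
  have hLc : Fintype.card (Ln p n) = (2 * p) ^ n := by
    simp only [Fintype.card_prod, Fintype.card_fun, ZMod.card, Fintype.card_fin, Fintype.card_bool]
    rw [mul_pow, mul_comm]
  set F : Ω → Finset (Ln p n) := fun ω =>
    univ.filter fun l => Sel δ S ω l ∧ ∀ m, Sel δ S ω m → ¬ Conf δ l m with hF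
  -- the structure of the families
  have hstr : ∀ ω, ∀ l₁ ∈ F ω, ∀ l₂ ∈ F ω, ∀ l₃ ∈ F ω, ∀ l : Ln p n, l.1 = l₁.1 →
      py δ l = py δ l₂ → pz δ l = pz δ l₃ → l = l₁ ∧ l = l₂ ∧ l = l₃ := by
    intro ω l₁ h₁ l₂ h₂ l₃ h₃ l e₁ e₂ e₃
    simp only [hF, mem_filter, mem_univ, true_and] at h₁ h₂ h₃
    have hl := sel_of_points δ N hN S hS hS3 ω l l₁ l₂ l₃ h₁.1 h₂.1 h₃.1 e₁ e₂ e₃
    refine ⟨?_, ?_, ?_⟩
    · by_contra hne
      exact h₁.2 l hl ⟨fun h => hne h.symm, Or.inl e₁.symm⟩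
    · by_contra hne
      exact h₂.2 l hl ⟨fun h => hne h.symm, Or.inr (Or.inl e₂.symm)⟩
    · by_contra hne
      exact h₃.2 l hl ⟨fun h => hne h.symm, Or.inr (Or.inr e₃.symm)⟩
  -- counting for fixed parameters
  have hω : ∀ ω : Ω, (univ.filter fun l : Ln p n => Sel δ S ω l).card ≤ (F ω).card +
      (univ.filter fun q : Ln p n × Ln p n => Conf δ q.1 q.2 ∧ Sel δ S ω q.1 ∧
        Sel δ S ω q.2).card := by
    intro ω
    have : (univ.filter fun l : Ln p n => Sel δ S ω l) ⊆ F ω ∪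
        (univ.filter fun q : Ln p n × Ln p n => Conf δ q.1 q.2 ∧ Sel δ S ω q.1 ∧
        Sel δ S ω q.2).image Prod.fst := by
      intro l hl
      have hl' := (mem_filter.mp hl).2
      rw [mem_union]
      by_cases h : ∀ m, Sel δ S ω m → ¬ Conf δ l m
      · exact Or.inl (mem_filter.mpr ⟨mem_univ _, hl', h⟩)
      · push Not at h
        obtain ⟨m, hm, hc⟩ := h
        exact Or.inr (mem_image.mpr ⟨(l, m), mem_filter.mpr ⟨mem_univ _, hc, hl', hm⟩, rfl⟩)
    exact (card_le_card this).trans ((card_union_le _ _).trans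
      (Nat.add_le_add_left card_image_le _))
  -- double counting
  have hA : Fintype.card (Ln p n) * (M ^ n * S.card) ≤
      ∑ ω : Ω, (univ.filter fun l : Ln p n => Sel δ S ω l).card := by
    calc Fintype.card (Ln p n) * (M ^ n * S.card)
        = ∑ _l : Ln p n, M ^ n * S.card := by simp
      _ ≤ ∑ l : Ln p n, (univ.filter fun ω : Ω => Sel δ S ω l).card :=
          sum_le_sum fun l _ => card_sel δ N (by omega) S hS l
      _ = ∑ ω : Ω, (univ.filter fun l : Ln p n => Sel δ S ω l).card := by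
          simp only [card_filter]
          exact sum_comm
  have hB : M * ∑ ω : Ω, (univ.filter fun q : Ln p n × Ln p n => Conf δ q.1 q.2 ∧
      Sel δ S ω q.1 ∧ Sel δ S ω q.2).card ≤
      Fintype.card (Ln p n) * (3 * 2 ^ n) * (M ^ n * S.card) := by
    calc M * ∑ ω : Ω, (univ.filter fun q : Ln p n × Ln p n => Conf δ q.1 q.2 ∧
          Sel δ S ω q.1 ∧ Sel δ S ω q.2).card
        = ∑ l : Ln p n, ∑ m : Ln p n, if Conf δ l m then
            M * (univ.filter fun ω : Ω => Sel δ S ω l ∧ Sel δ S ω m).card else 0 := by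
          simp only [card_filter]
          rw [sum_comm, mul_sum, Fintype.sum_prod_type]
          refine sum_congr rfl fun l _ => sum_congr rfl fun m _ => ?_
          by_cases hc : Conf δ l m
          · simp only [hc, true_and, if_true]
          · simp only [hc, false_and, if_false, sum_const_zero, mul_zero]
      _ ≤ ∑ l : Ln p n, ∑ m : Ln p n, if Conf δ l m then M ^ n * S.card else 0 := by
          refine sum_le_sum fun l _ => sum_le_sum fun m _ => ?_
          by_cases hc : Conf δ l m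
          · simp only [hc, if_true]
            exact card_bad hp hM2 hpM hδ S l m hc
          · simp only [hc, if_false]; exact le_rfl
      _ = ∑ l : Ln p n, (univ.filter fun m : Ln p n => Conf δ l m).card * (M ^ n * S.card) := by
          refine sum_congr rfl fun l _ => ?_
          rw [← sum_filter, sum_const, smul_eq_mul]
      _ ≤ ∑ _l : Ln p n, (3 * 2 ^ n) * (M ^ n * S.card) :=
          sum_le_sum fun l _ => Nat.mul_le_mul_right _ (card_conf δ l)
      _ = Fintype.card (Ln p n) * (3 * 2 ^ n) * (M ^ n * S.card) := by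
          simp only [sum_const, card_univ, smul_eq_mul]; ring
  -- conclusion
  obtain ⟨ω, hmax⟩ : ∃ ω : Ω, ∀ ω', (F ω').card ≤ (F ω).card := by
    haveI : Nonempty Ω := inferInstanceAs (Nonempty ((Fin n → ZMod M) × ZMod M × ZMod M))
    exact Finite.exists_max fun ω => (F ω).card
  refine ⟨F ω, ?_, hstr ω⟩
  have h1 : ∑ ω' : Ω, (F ω').card ≤ M ^ n * M ^ 2 * (F ω).card := by
    calc ∑ ω' : Ω, (F ω').card ≤ ∑ _ω' : Ω, (F ω).card := sum_le_sum fun ω' _ => hmax ω'
      _ = M ^ n * M ^ 2 * (F ω).card := by simp [hΩc]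
  have h2 : ∑ ω' : Ω, (univ.filter fun l : Ln p n => Sel δ S ω' l).card ≤
      ∑ ω' : Ω, (F ω').card + ∑ ω' : Ω, (univ.filter fun q : Ln p n × Ln p n =>
        Conf δ q.1 q.2 ∧ Sel δ S ω' q.1 ∧ Sel δ S ω' q.2).card := by
    rw [← sum_add_distrib]
    exact sum_le_sum fun ω' _ => hω ω'
  rw [hLc] at hA hB
  set L := (2 * p) ^ n with hL
  set B := ∑ ω' : Ω, (univ.filter fun q : Ln p n × Ln p n =>
        Conf δ q.1 q.2 ∧ Sel δ S ω' q.1 ∧ Sel δ S ω' q.2).card with hBdef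
  set A := ∑ ω' : Ω, (univ.filter fun l : Ln p n => Sel δ S ω' l).card with hAdef
  set G := ∑ ω' : Ω, (F ω').card with hGdef
  -- 2 M A ≤ 2 M G + 2 M B, 2 M B ≤ L (6 * 2 ^ n) (M ^ n |S|) ≤ M L M ^ n |S|
  have h3 : 2 * (M * B) ≤ M * (L * (M ^ n * S.card)) := by
    calc 2 * (M * B) ≤ 2 * (L * (3 * 2 ^ n) * (M ^ n * S.card)) := Nat.mul_le_mul_left _ hB
      _ = (6 * 2 ^ n) * (L * (M ^ n * S.card)) := by ring
      _ ≤ M * (L * (M ^ n * S.card)) := Nat.mul_le_mul_right _ hM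
  have h4 : 2 * (M * (L * (M ^ n * S.card))) ≤ 2 * (M * (G + B)) := by
    gcongr
    exact hA.trans h2
  have h5 : M * (L * (M ^ n * S.card)) ≤ M * (2 * G) := by
    have e1 : 2 * (M * (G + B)) = M * (2 * G) + 2 * (M * B) := by ring
    omega
  have h6 : L * (M ^ n * S.card) ≤ 2 * G := Nat.le_of_mul_le_mul_left h5 hMpos
  have h7 : M ^ n * (L * S.card) ≤ M ^ n * (2 * M ^ 2 * (F ω).card) := by
    calc M ^ n * (L * S.card) = L * (M ^ n * S.card) := by ring
      _ ≤ 2 * G := h6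
      _ ≤ 2 * (M ^ n * M ^ 2 * (F ω).card) := Nat.mul_le_mul_left _ h1
      _ = M ^ n * (2 * M ^ 2 * (F ω).card) := by ring
  exact Nat.le_of_mul_le_mul_left h7 (pow_pos hMpos n)

end Helper64.RB.Tri
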