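import Pool.Agent.Helper64.RB.Lead

/-!
# Fractional certificates

Items `i ∈ I` carry three orders (indices in `O₁, O₂, O₃`) and a point `a i`, and the only element
of `Φ` above `(a i, a i, a i)` is the trivial one. If each pair (order, point) occurs equally often
then every tensor supported on the `n`-th power of `Φ`, restricted to any `B`, and non-zero on the
diagonal, has slice rank at least `|B|`.
-/

namespace Helper64.RB

open Finset

theorem lex_le' {n : ℕ} {f g : Fin n → ℤ} (h : toLex f ≤ toLex g) (i : Fin n)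
    (hi : ∀ j < i, f j = g j) : f i ≤ g i := by
  rcases h.eq_or_lt with h | h
  · exact le_of_eq (congrFun (toLex.injective h) i)
  · obtain ⟨j, hj, hlt⟩ := h
    have hlt' : f j < g j := hlt
    rcases lt_trichotomy i j with hij | hij | hij
    · exact le_of_eq (hj i hij)
    · subst hij; exact hlt'.le
    · exact absurd (hi j hij) hlt'.ne

theorem lex_iso {X : Type*} {n : ℕ} (Φ : X → X → X → Prop) (k₁ k₂ k₃ : Fin n → X → ℤ)
    (a x y z : Fin n → X)
    (hi : ∀ i, ∀ u v w, Φ u v w → k₁ i (a i) ≤ k₁ i u → k₂ i (a i) ≤ k₂ i v →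
      k₃ i (a i) ≤ k₃ i w → u = a i ∧ v = a i ∧ w = a i)
    (hΦ : ∀ i, Φ (x i) (y i) (z i))
    (h₁ : toLex (fun i => k₁ i (a i)) ≤ toLex (fun i => k₁ i (x i)))
    (h₂ : toLex (fun i => k₂ i (a i)) ≤ toLex (fun i => k₂ i (y i)))
    (h₃ : toLex (fun i => k₃ i (a i)) ≤ toLex (fun i => k₃ i (z i))) :
    x = a ∧ y = a ∧ z = a := by
  have key : ∀ i : Fin n, x i = a i ∧ y i = a i ∧ z i = a i := by
    intro i
    induction i using WellFoundedLT.induction with
    | ind i ih =>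
      exact hi i _ _ _ (hΦ i) (lex_le' h₁ i fun j hj => by rw [(ih j hj).1])
        (lex_le' h₂ i fun j hj => by rw [(ih j hj).2.1])
        (lex_le' h₃ i fun j hj => by rw [(ih j hj).2.2])
  exact ⟨funext fun i => (key i).1, funext fun i => (key i).2.1, funext fun i => (key i).2.2⟩

/-- Counting: if every (order, point) occurs `c` times, then the number of `n`-tuples of items
whose point lies in an exceptional set depending on the order tuple is at most
`c ^ n * |O| ^ n * r`. -/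
theorem count_le {X I O : Type*} [Fintype X] [Fintype I] [Fintype O] [DecidableEq X]
    [DecidableEq O] [DecidableEq I] (o : I → O) (a : I → X) (c : ℕ)
    (hc : ∀ q b, (univ.filter fun i => o i = q ∧ a i = b).card = c) (n : ℕ)
    (S : (Fin n → O) → Finset (Fin n → X)) :
    (univ.filter fun s : Fin n → I => (fun j => a (s j)) ∈ S (fun j => o (s j))).card =
      c ^ n * ∑ q, (S q).card := by
  have hfib : ∀ (q : Fin n → O) (b : Fin n → X),
      (univ.filter fun s : Fin n → I => (fun j => o (s j)) = q ∧ (fun j => a (s j)) = b).card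
        = c ^ n := by
    intro q b
    have : (univ.filter fun s : Fin n → I => (fun j => o (s j)) = q ∧ (fun j => a (s j)) = b)
        = Fintype.piFinset fun j => univ.filter fun i => o i = q j ∧ a i = b j := by
      ext s
      simp only [mem_filter, mem_univ, true_and, Fintype.mem_piFinset, funext_iff]
      exact ⟨fun h j => ⟨h.1 j, h.2 j⟩, fun h => ⟨fun j => (h j).1, fun j => (h j).2⟩⟩
    rw [this, Fintype.card_piFinset]
    simp [hc]
  have h1 : (univ.filter fun s : Fin n → I => (fun j => a (s j)) ∈ S (fun j => o (s j)))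
      = univ.biUnion fun q : Fin n → O => (S q).biUnion fun b =>
          univ.filter fun s : Fin n → I => (fun j => o (s j)) = q ∧ (fun j => a (s j)) = b := by
    ext s
    simp only [mem_filter, mem_univ, true_and, mem_biUnion]
    constructor
    · intro h
      exact ⟨_, _, h, rfl, rfl⟩
    · rintro ⟨q, b, hb, rfl, rfl⟩
      exact hb
  rw [h1, card_biUnion, mul_sum]
  · refine sum_congr rfl fun q _ => ?_
    rw [card_biUnion]
    · simp only [hfib, sum_const, smul_eq_mul, mul_comm]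
    · intro b _ b' _ hbb
      rw [Function.onFun, disjoint_left]
      rintro s hs hs'
      exact hbb ((mem_filter.mp hs).2.2.symm.trans (mem_filter.mp hs').2.2)
  · intro q _ q' _ hqq
    rw [Function.onFun, disjoint_left]
    rintro s hs hs'
    obtain ⟨b, -, hb⟩ := mem_biUnion.mp hs
    obtain ⟨b', -, hb'⟩ := mem_biUnion.mp hs'
    exact hqq ((mem_filter.mp hb).2.1.symm.trans (mem_filter.mp hb').2.1)

/-- **Fractional certificates give full slice rank.** -/
theorem frac_full {X I O₁ O₂ O₃ : Type} [Fintype X] [Fintype I] [Fintype O₁] [Fintype O₂]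
    [Fintype O₃] [Nonempty X] [Nonempty I]
    (κ₁ : O₁ → X → ℤ) (κ₂ : O₂ → X → ℤ) (κ₃ : O₃ → X → ℤ)
    (Φ : X → X → X → Prop) (o₁ : I → O₁) (o₂ : I → O₂) (o₃ : I → O₃) (a : I → X) (c₁ c₂ c₃ : ℕ)
    (h₁ : ∀ q b, Nat.card {i : I // o₁ i = q ∧ a i = b} = c₁)
    (h₂ : ∀ q b, Nat.card {i : I // o₂ i = q ∧ a i = b} = c₂)
    (h₃ : ∀ q b, Nat.card {i : I // o₃ i = q ∧ a i = b} = c₃)
    (hiso : ∀ i x y z, Φ x y z → κ₁ (o₁ i) (a i) ≤ κ₁ (o₁ i) x → κ₂ (o₂ i) (a i) ≤ κ₂ (o₂ i) y →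
      κ₃ (o₃ i) (a i) ≤ κ₃ (o₃ i) z → x = a i ∧ y = a i ∧ z = a i)
    (n : ℕ) (B : Finset (Fin n → X)) {K : Type*} [Field K] (T : B → B → B → K)
    (hT : ∀ x y z : B, T x y z ≠ 0 → ∀ i, Φ (x.1 i) (y.1 i) (z.1 i))
    (hd : ∀ x, T x x x ≠ 0) {r : ℕ} (h : SliceLe T r) : B.card ≤ r := by
  classical
  obtain ⟨r₁, r₂, r₃, hr, f₁, g₁, f₂, g₂, f₃, g₃, hsl⟩ := h
  have h₁' : ∀ q b, (univ.filter fun i => o₁ i = q ∧ a i = b).card = c₁ := fun q b => by
    rw [← h₁ q b, Nat.card_eq_fintype_card, Fintype.card_subtype]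
  have h₂' : ∀ q b, (univ.filter fun i => o₂ i = q ∧ a i = b).card = c₂ := fun q b => by
    rw [← h₂ q b, Nat.card_eq_fintype_card, Fintype.card_subtype]
  have h₃' : ∀ q b, (univ.filter fun i => o₃ i = q ∧ a i = b).card = c₃ := fun q b => by
    rw [← h₃ q b, Nat.card_eq_fintype_card, Fintype.card_subtype]
  -- the total number of items
  have htot : ∀ {O : Type} [Fintype O] (o : I → O) (c : ℕ)
      (_ : ∀ q b, (univ.filter fun i => o i = q ∧ a i = b).card = c),
      (Fintype.card I) ^ n = c ^ n * ((Fintype.card O) ^ n * (Fintype.card X) ^ n) := by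
    intro O _ o c hc
    have := count_le o a c hc n (fun _ => univ)
    simpa using this
  obtain ⟨N, hN, hN0⟩ : ∃ N, N = (Fintype.card I) ^ n ∧ 0 < N := ⟨_, rfl, pow_pos Fintype.card_pos n⟩
  -- exceptional sets
  choose E₁ hE₁ hE₁' using fun q : Fin n → O₁ =>
    lead (X := B) (fun x : B => toLex fun i => κ₁ (q i) (x.1 i)) f₁
  choose E₂ hE₂ hE₂' using fun q : Fin n → O₂ =>
    lead (X := B) (fun x : B => toLex fun i => κ₂ (q i) (x.1 i)) f₂
  choose E₃ hE₃ hE₃' using fun q : Fin n → O₃ =>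
    lead (X := B) (fun x : B => toLex fun i => κ₃ (q i) (x.1 i)) f₃
  by_contra hlt
  push Not at hlt
  -- counting bound for one leg
  have hcount : ∀ {O : Type} [Fintype O] (o : I → O) (c : ℕ)
      (_ : ∀ q b, (univ.filter fun i => o i = q ∧ a i = b).card = c)
      (E : (Fin n → O) → Finset B) (ρ : ℕ) (_ : ∀ q, (E q).card ≤ ρ),
      (univ.filter fun s : Fin n → I => (fun j => a (s j)) ∈
        (E (fun j => o (s j))).image Subtype.val).card * (Fintype.card X) ^ n ≤ N * ρ := by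
    intro O _ o c hc E ρ hE
    rw [count_le o a c hc n (fun q => (E q).image Subtype.val), hN, htot o c hc]
    have : ∑ q : Fin n → O, ((E q).image Subtype.val).card ≤ (Fintype.card O) ^ n * ρ := by
      calc ∑ q : Fin n → O, ((E q).image Subtype.val).card ≤ ∑ _q : Fin n → O, ρ :=
            sum_le_sum fun q _ => card_image_le.trans (hE q)
        _ = (Fintype.card O) ^ n * ρ := by simp
    calc (c ^ n * ∑ q : Fin n → O, ((E q).image Subtype.val).card) * (Fintype.card X) ^ n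
        ≤ (c ^ n * ((Fintype.card O) ^ n * ρ)) * (Fintype.card X) ^ n := by gcongr
      _ = c ^ n * ((Fintype.card O) ^ n * (Fintype.card X) ^ n) * ρ := by ring
  have hB : (univ.filter fun s : Fin n → I => (fun j => a (s j)) ∈ B).card *
      (Fintype.card X) ^ n = N * B.card := by
    rw [count_le o₁ a c₁ h₁' n (fun _ => B), hN, htot o₁ c₁ h₁']
    simp
    ring
  have e₁ := hcount o₁ c₁ h₁' E₁ r₁ hE₁
  have e₂ := hcount o₂ c₂ h₂' E₂ r₂ hE₂
  have e₃ := hcount o₃ c₃ h₃' E₃ r₃ hE₃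
  set G₁ := univ.filter fun s : Fin n → I => (fun j => a (s j)) ∈
        (E₁ (fun j => o₁ (s j))).image Subtype.val with hG₁
  set G₂ := univ.filter fun s : Fin n → I => (fun j => a (s j)) ∈
        (E₂ (fun j => o₂ (s j))).image Subtype.val with hG₂
  set G₃ := univ.filter fun s : Fin n → I => (fun j => a (s j)) ∈
        (E₃ (fun j => o₃ (s j))).image Subtype.val with hG₃
  set G := univ.filter fun s : Fin n → I => (fun j => a (s j)) ∈ B with hG
  have hX : 0 < (Fintype.card X) ^ n := pow_pos Fintype.card_pos n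
  have hlt' : (G₁ ∪ G₂ ∪ G₃).card < G.card := by
    have u1 := card_union_le (G₁ ∪ G₂) G₃
    have u2 := card_union_le G₁ G₂
    have : (G₁ ∪ G₂ ∪ G₃).card * (Fintype.card X) ^ n < G.card * (Fintype.card X) ^ n := by
      calc (G₁ ∪ G₂ ∪ G₃).card * (Fintype.card X) ^ n
          ≤ (G₁.card + G₂.card + G₃.card) * (Fintype.card X) ^ n :=
            Nat.mul_le_mul_right _ (by omega)
        _ = G₁.card * (Fintype.card X) ^ n + G₂.card * (Fintype.card X) ^ n +
            G₃.card * (Fintype.card X) ^ n := by ring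
        _ ≤ N * r₁ + N * r₂ + N * r₃ := by gcongr
        _ = N * (r₁ + r₂ + r₃) := by ring
        _ < N * B.card := Nat.mul_lt_mul_of_pos_left (by omega) hN0
        _ = G.card * (Fintype.card X) ^ n := hB.symm
    exact lt_of_mul_lt_mul_right this (Nat.zero_le _)
  obtain ⟨s, hsG, hs⟩ : ∃ s ∈ G, s ∉ G₁ ∪ G₂ ∪ G₃ := by
    by_contra hcon
    push Not at hcon
    exact absurd (card_le_card (show G ⊆ G₁ ∪ G₂ ∪ G₃ from hcon)) (not_le.mpr hlt')
  have hsB : (fun j => a (s j)) ∈ B := (mem_filter.mp hsG).2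
  simp only [mem_union, not_or] at hs
  have n₁ : (⟨_, hsB⟩ : B) ∉ E₁ (fun j => o₁ (s j)) := fun hm =>
    hs.1.1 (mem_filter.mpr ⟨mem_univ _, mem_image.mpr ⟨_, hm, rfl⟩⟩)
  have n₂ : (⟨_, hsB⟩ : B) ∉ E₂ (fun j => o₂ (s j)) := fun hm =>
    hs.1.2 (mem_filter.mpr ⟨mem_univ _, mem_image.mpr ⟨_, hm, rfl⟩⟩)
  have n₃ : (⟨_, hsB⟩ : B) ∉ E₃ (fun j => o₃ (s j)) := fun hm =>
    hs.2 (mem_filter.mpr ⟨mem_univ _, mem_image.mpr ⟨_, hm, rfl⟩⟩)
  refine slice_false (fun x : B => toLex fun i => κ₁ (o₁ (s i)) (x.1 i))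
    (fun x : B => toLex fun i => κ₂ (o₂ (s i)) (x.1 i))
    (fun x : B => toLex fun i => κ₃ (o₃ (s i)) (x.1 i)) ⟨_, hsB⟩ T ?_ (hd _)
    f₁ g₁ f₂ g₂ f₃ g₃ hsl (hE₁' _ _ n₁) (hE₂' _ _ n₂) (hE₃' _ _ n₃)
  intro x y z hxyz k₁ k₂ k₃
  obtain ⟨q₁, q₂, q₃⟩ := lex_iso Φ (fun i => κ₁ (o₁ (s i))) (fun i => κ₂ (o₂ (s i)))
    (fun i => κ₃ (o₃ (s i))) (fun j => a (s j)) x.1 y.1 z.1 (fun i => hiso (s i)) (hT x y z hxyz)
    k₁ k₂ k₃
  exact ⟨Subtype.ext q₁, Subtype.ext q₂, Subtype.ext q₃⟩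

end Helper64.RB
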