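import Mathlib

/-!
# The fractional relaxation

Sets `V` in `(ZMod p)^n` without non-trivial measures on `D`-lines in `V` with three equal
marginals, potentials for them (linear programming duality), and powers.
-/

namespace Helper64.RB.Frx

open Finset

/-- no non-trivial `D`-line inside `A` -/
def DFree {p n : ℕ} (D : Set (ZMod p)) (A : Finset (Fin n → ZMod p)) : Prop :=
  ∀ x w : Fin n → ZMod p, (∀ i, w i ∈ D) → x ∈ A → x + w ∈ A → x + w + w ∈ A → w = 0

/-- no non-trivial non-negative weights on the `D`-lines inside `V` with three equal marginals -/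
def FracFree {p n : ℕ} [NeZero p] (D : Set (ZMod p)) (V : Finset (Fin n → ZMod p)) : Prop :=
  ∀ μ : (Fin n → ZMod p) → (Fin n → ZMod p) → ℝ, (∀ x w, 0 ≤ μ x w) →
    (∀ x w, μ x w ≠ 0 → (∀ i, w i ∈ D) ∧ x ∈ V ∧ x + w ∈ V ∧ x + w + w ∈ V) →
    (∀ v, ∑ w, μ v w = ∑ w, μ (v - w) w) → (∀ v, ∑ w, μ v w = ∑ w, μ (v - w - w) w) →
    ∀ x w, w ≠ 0 → μ x w = 0

theorem DFree.fracFree {p n : ℕ} [NeZero p] {D : Set (ZMod p)} {A : Finset (Fin n → ZMod p)}
    (h : DFree D A) : FracFree D A := by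
  intro μ _ hs _ _ x w hw
  by_contra hne
  obtain ⟨h1, h2, h3, h4⟩ := hs x w hne
  exact hw (h x w h1 h2 h3 h4)

/-- **Potentials** (linear programming duality), for a finite abelian group. -/
theorem potentials_gen {X : Type} [AddCommGroup X] [Fintype X] [DecidableEq X] (P : X → Prop)
    (V : Finset X) (h : ∀ μ : X → X → ℝ, (∀ x w, 0 ≤ μ x w) →
    (∀ x w, μ x w ≠ 0 → P w ∧ x ∈ V ∧ x + w ∈ V ∧ x + w + w ∈ V) →
    (∀ v, ∑ w, μ v w = ∑ w, μ (v - w) w) → (∀ v, ∑ w, μ v w = ∑ w, μ (v - w - w) w) →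
    ∀ x w, w ≠ 0 → μ x w = 0) : ∃ u v : X → ℝ, ∀ x w : X, w ≠ 0 →
      P w → x ∈ V → x + w ∈ V → x + w + w ∈ V →
      0 < u x - u (x + w + w) + (v (x + w) - v (x + w + w)) := by
  classical
  set ι := {q : X × X // q.2 ≠ 0 ∧ P q.2 ∧ q.1 ∈ V ∧ q.1 + q.2 ∈ V ∧
    q.1 + q.2 + q.2 ∈ V} with hι
  have : Fintype ι := Fintype.ofFinite _
  set s : ι → (X → ℝ) × (X → ℝ) := fun q =>
    (Pi.single q.1.1 1 - Pi.single (q.1.1 + q.1.2 + q.1.2) 1,
     Pi.single (q.1.1 + q.1.2) 1 - Pi.single (q.1.1 + q.1.2 + q.1.2) 1) with hs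
  have h0 : (0 : (X → ℝ) × (X → ℝ)) ∉ convexHull ℝ (Set.range s) := by
    intro hmem
    set Φ : (ι → ℝ) →ₗ[ℝ] (X → ℝ) × (X → ℝ) :=
      ∑ q : ι, (LinearMap.proj q : (ι → ℝ) →ₗ[ℝ] ℝ).smulRight (s q) with hΦ
    have hΦa : ∀ m : ι → ℝ, Φ m = ∑ q, m q • s q := by
      intro m
      simp [hΦ, LinearMap.sum_apply]
    have hr : Set.range s = Φ '' Set.range (fun i : ι => Pi.single i (1 : ℝ)) := by
      rw [← Set.range_comp]
      congr 1
      funext i
      simp only [Function.comp_apply, hΦa]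
      rw [sum_eq_single i]
      · simp
      · intro j _ hj
        simp [Pi.single_eq_of_ne hj]
      · intro hi; exact absurd (mem_univ i) hi
    rw [hr, ← LinearMap.image_convexHull, convexHull_rangle_single_eq_stdSimplex] at hmem
    obtain ⟨m, ⟨hm0, hm1⟩, hm⟩ := hmem
    rw [hΦa] at hm
    -- the measure
    set μ : X → X → ℝ := fun x w => if hq : (x, w).2 ≠ 0 ∧ P (x, w).2 ∧ (x, w).1 ∈ V ∧
        (x, w).1 + (x, w).2 ∈ V ∧ (x, w).1 + (x, w).2 + (x, w).2 ∈ V then m ⟨(x, w), hq⟩ else 0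
      with hμ
    have hμq : ∀ q : ι, μ q.1.1 q.1.2 = m q := by
      rintro ⟨⟨x, w⟩, hq⟩
      simp only [hμ]
      rw [dif_pos hq]
    -- sums over ι as sums over X × X
    have hsum : ∀ g : X × X → ℝ, ∑ q : ι, m q * g q.1 = ∑ x, ∑ w, μ x w * g (x, w) := by
      intro g
      rw [← Fintype.sum_prod_type' (f := fun x w => μ x w * g (x, w))]
      have e1 : ∑ q : ι, m q * g q.1 = ∑ q : ι, (fun q : X × X => μ q.1 q.2 * g (q.1, q.2)) q.1 :=
        sum_congr rfl fun q _ => by simp only [hμq]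
      rw [e1]
      have e2 := Finset.sum_subtype_of_mem (p := fun q : X × X => q.2 ≠ 0 ∧ P q.2 ∧
        q.1 ∈ V ∧ q.1 + q.2 ∈ V ∧ q.1 + q.2 + q.2 ∈ V) (s := univ.filter fun q : X × X => q.2 ≠ 0 ∧
        P q.2 ∧ q.1 ∈ V ∧ q.1 + q.2 ∈ V ∧ q.1 + q.2 + q.2 ∈ V)
        (fun q : X × X => μ q.1 q.2 * g (q.1, q.2)) (fun q hq => (mem_filter.mp hq).2)
      have e3 : ∑ q : X × X, μ q.1 q.2 * g (q.1, q.2) = ∑ q ∈ univ.filter fun q : X × X => q.2 ≠ 0 ∧
        P q.2 ∧ q.1 ∈ V ∧ q.1 + q.2 ∈ V ∧ q.1 + q.2 + q.2 ∈ V,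
          μ q.1 q.2 * g (q.1, q.2) := by
        rw [sum_filter]
        refine sum_congr rfl fun q _ => ?_
        by_cases hq : q.2 ≠ 0 ∧ P q.2 ∧ q.1 ∈ V ∧ q.1 + q.2 ∈ V ∧ q.1 + q.2 + q.2 ∈ V
        · rw [if_pos hq]
        · rw [if_neg hq]
          have : μ q.1 q.2 = 0 := by simp only [hμ]; rw [dif_neg hq]
          rw [this, zero_mul]
      rw [e3, ← e2]
      refine sum_bij (fun q _ => q) (fun q _ => ?_) (fun _ _ _ _ h => h) (fun q hq => ?_)
        (fun _ _ => rfl)
      · simp only [mem_subtype, mem_filter, mem_univ, true_and]; exact q.2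
      · exact ⟨q, mem_univ _, rfl⟩
    -- the marginals
    have hcomp1 : ∀ v, ∑ q : ι, m q * ((if q.1.1 = v then (1 : ℝ) else 0) -
        (if q.1.1 + q.1.2 + q.1.2 = v then 1 else 0)) = 0 := by
      intro v
      have := congrFun (congrArg Prod.fst hm) v
      simp only [Prod.fst_sum, Prod.smul_fst, Finset.sum_apply, Pi.smul_apply, smul_eq_mul, hs,
        Pi.sub_apply, Prod.fst_zero, Pi.zero_apply, Pi.single_apply] at this
      refine Eq.trans (sum_congr rfl fun q _ => ?_) this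
      simp only [eq_comm]
    have hcomp2 : ∀ v, ∑ q : ι, m q * ((if q.1.1 + q.1.2 = v then (1 : ℝ) else 0) -
        (if q.1.1 + q.1.2 + q.1.2 = v then 1 else 0)) = 0 := by
      intro v
      have := congrFun (congrArg Prod.snd hm) v
      simp only [Prod.snd_sum, Prod.smul_snd, Finset.sum_apply, Pi.smul_apply, smul_eq_mul, hs,
        Pi.sub_apply, Prod.snd_zero, Pi.zero_apply, Pi.single_apply] at this
      refine Eq.trans (sum_congr rfl fun q _ => ?_) this
      simp only [eq_comm]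
    have m1 : ∀ v, ∑ x, ∑ w, μ x w * (if x = v then (1 : ℝ) else 0) = ∑ w, μ v w := by
      intro v
      rw [sum_comm]
      refine sum_congr rfl fun w _ => ?_
      simp
    have m2 : ∀ v, ∑ x, ∑ w, μ x w * (if x + w = v then (1 : ℝ) else 0) = ∑ w, μ (v - w) w := by
      intro v
      rw [sum_comm]
      refine sum_congr rfl fun w _ => ?_
      rw [sum_eq_single (v - w)]
      · simp
      · intro x _ hx
        rw [if_neg (fun h => hx (by rw [← h, add_sub_cancel_right])), mul_zero]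
      · intro h; exact absurd (mem_univ _) h
    have m3 : ∀ v, ∑ x, ∑ w, μ x w * (if x + w + w = v then (1 : ℝ) else 0) =
        ∑ w, μ (v - w - w) w := by
      intro v
      rw [sum_comm]
      refine sum_congr rfl fun w _ => ?_
      rw [sum_eq_single (v - w - w)]
      · simp
      · intro x _ hx
        rw [if_neg (fun h => hx (by rw [← h, add_sub_cancel_right, add_sub_cancel_right])),
          mul_zero]
      · intro h; exact absurd (mem_univ _) h
    have hzero : ∀ x w, w ≠ 0 → μ x w = 0 := by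
      refine h μ ?_ ?_ ?_ ?_
      · intro x w
        simp only [hμ]
        split_ifs with hq
        · exact hm0 _
        · exact le_rfl
      · intro x w hne
        by_contra hcon
        apply hne
        simp only [hμ]
        rw [dif_neg]
        intro hq
        exact hcon ⟨hq.2.1, hq.2.2.1, hq.2.2.2.1, hq.2.2.2.2⟩
      · intro v
        have e1 := hcomp1 v
        have e2 := hcomp2 v
        simp only [mul_sub, sum_sub_distrib] at e1 e2
        have a1 := hsum fun q => if q.1 = v then (1 : ℝ) else 0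
        have a2 := hsum fun q => if q.1 + q.2 = v then (1 : ℝ) else 0
        simp only [m1, m2] at a1 a2
        rw [← a1, ← a2]
        linarith
      · intro v
        have e1 := hcomp1 v
        simp only [mul_sub, sum_sub_distrib] at e1
        have a1 := hsum fun q => if q.1 = v then (1 : ℝ) else 0
        have a3 := hsum fun q => if q.1 + q.2 + q.2 = v then (1 : ℝ) else 0
        simp only [m1, m3] at a1 a3
        rw [← a1, ← a3]
        linarith
    have : ∑ q : ι, m q = 0 := by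
      refine sum_eq_zero fun q _ => ?_
      rw [← hμq q]
      exact hzero _ _ q.2.1
    rw [this] at hm1
    exact zero_ne_one hm1
  obtain ⟨f, c, hf0, hf⟩ := geometric_hahn_banach_point_closed (convex_convexHull ℝ (Set.range s))
    (Set.Finite.isClosed_convexHull (𝕜 := ℝ) (Set.finite_range s)) h0
  rw [map_zero] at hf0
  refine ⟨fun x => f (Pi.single x 1, 0), fun y => f (0, Pi.single y 1), ?_⟩
  intro x w hw hD hx hy hz
  have h1 := hf _ (subset_convexHull ℝ _ ⟨(⟨(x, w), hw, hD, hx, hy, hz⟩ : ι), rfl⟩)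
  have h2 : f (s (⟨(x, w), hw, hD, hx, hy, hz⟩ : ι)) =
      f (Pi.single x 1, 0) - f (Pi.single (x + w + w) 1, 0) +
      (f (0, Pi.single (x + w) 1) - f (0, Pi.single (x + w + w) 1)) := by
    rw [← map_sub, ← map_sub, ← map_add]
    congr 1
    simp [hs]
  rw [← h2]
  linarith

theorem FracFree.potentials {p n : ℕ} [NeZero p] {D : Set (ZMod p)} {V : Finset (Fin n → ZMod p)}
    (h : FracFree D V) : ∃ u v : (Fin n → ZMod p) → ℝ, ∀ x w : Fin n → ZMod p, w ≠ 0 →
      (∀ i, w i ∈ D) → x ∈ V → x + w ∈ V → x + w + w ∈ V →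
      0 < u x - u (x + w + w) + (v (x + w) - v (x + w + w)) := by
  classical
  exact potentials_gen (fun w : Fin n → ZMod p => ∀ i, w i ∈ D) V h

end Helper64.RB.Frx
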