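import Mathlib

/-!
# Slice rank and leading positions

Linear algebra behind the lower bounds for the slice rank: from `r` linear conditions on the
functions on a finite set `X` and a (pre)order on `X` one gets at most `r` exceptional positions;
for every other position `a` there is a solution which is non-zero at `a` and supported above `a`.
-/

namespace Helper64.RB

open Finset

/-- `T` is a sum of at most `r` slices (the slice rank of `T` is at most `r`). -/
def SliceLe {X : Type*} {K : Type*} [Field K] (T : X → X → X → K) (r : ℕ) : Prop :=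
  ∃ r₁ r₂ r₃ : ℕ, r₁ + r₂ + r₃ ≤ r ∧
    ∃ (f₁ : Fin r₁ → X → K) (g₁ : Fin r₁ → X → X → K)
      (f₂ : Fin r₂ → X → K) (g₂ : Fin r₂ → X → X → K)
      (f₃ : Fin r₃ → X → K) (g₃ : Fin r₃ → X → X → K),
      ∀ x y z, T x y z =
        ∑ i, f₁ i x * g₁ i y z + ∑ i, f₂ i y * g₂ i x z + ∑ i, f₃ i z * g₃ i x y

theorem lead {X : Type*} [Fintype X] {K : Type*} [Field K] {L : Type*} [LinearOrder L]
    (κ : X → L) {r : ℕ} (f : Fin r → X → K) :
    ∃ B : Finset X, B.card ≤ r ∧ ∀ a, a ∉ B → ∃ α : X → K,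
      (∀ i, ∑ x, α x * f i x = 0) ∧ α a ≠ 0 ∧ ∀ x, α x ≠ 0 → κ a ≤ κ x := by
  classical
  set F : X → (Fin r → K) := fun x i => f i x with hF
  set U : X → Set X := fun a => {x | κ a ≤ κ x ∧ x ≠ a} with hU
  set B : Finset X := univ.filter fun a => F a ∉ Submodule.span K (F '' U a) with hB
  have key : ∀ S : Finset X, S ⊆ B → LinearIndepOn K F (S : Set X) := by
    intro S
    refine Finset.induction_on_min_value
      (motive := fun S => S ⊆ B → LinearIndepOn K F (S : Set X)) κ S ?_ ?_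
    · intro _; simp
    · intro a s has hmin ih hS
      have hs : s ⊆ B := fun x hx => hS (mem_insert_of_mem hx)
      have haB : a ∈ B := hS (mem_insert_self a s)
      rw [coe_insert, linearIndepOn_insert (by simpa using has)]
      refine ⟨ih hs, fun hmem => ?_⟩
      have hna := (mem_filter.mp haB).2
      apply hna
      refine Submodule.span_mono ?_ hmem
      apply Set.image_mono
      intro x hx
      have hx' : x ∈ s := by simpa using hx
      exact ⟨hmin x hx', fun h => has (h ▸ hx')⟩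
  refine ⟨B, ?_, ?_⟩
  · have h := key B (Subset.refl B)
    have h2 : LinearIndependent K fun x : (B : Set X) => F x := h
    have h3 := h2.fintype_card_le_finrank
    simpa using h3
  · intro a ha
    have hmem : F a ∈ Submodule.span K (F '' U a) := by
      by_contra hcon
      exact ha (mem_filter.mpr ⟨mem_univ a, hcon⟩)
    rw [Finsupp.mem_span_image_iff_linearCombination] at hmem
    obtain ⟨l, hl, hlF⟩ := hmem
    have hla : ∀ x, l x ≠ 0 → x ∈ U a := by
      intro x hx
      exact (Finsupp.mem_supported K l).mp hl (by simpa using hx)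
    have hl0 : l a = 0 := by
      by_contra hcon
      exact (hla a hcon).2 rfl
    refine ⟨fun x => (if x = a then 1 else 0) - l x, ?_, ?_, ?_⟩
    · intro i
      have h1 : ∑ x, l x * f i x = f i a := by
        have := congrFun hlF i
        rw [Finsupp.linearCombination_apply, Finsupp.sum_fintype _ _ (by simp)] at this
        simpa [hF, Finset.sum_apply] using this
      simp only [sub_mul, sum_sub_distrib, h1, ite_mul, one_mul, zero_mul, sum_ite_eq', mem_univ,
        if_true, sub_self]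
    · simp [hl0]
    · intro x hx
      by_cases hxa : x = a
      · rw [hxa]
      · have : l x ≠ 0 := by
          intro h
          apply hx
          simp [hxa, h]
        exact (hla x this).1

theorem slice_false {X : Type*} [Fintype X] {K : Type*} [Field K]
    {L₁ L₂ L₃ : Type*} [LinearOrder L₁] [LinearOrder L₂] [LinearOrder L₃]
    (κ₁ : X → L₁) (κ₂ : X → L₂) (κ₃ : X → L₃) (a : X) (T : X → X → X → K)
    (hcert : ∀ x y z, T x y z ≠ 0 → κ₁ a ≤ κ₁ x → κ₂ a ≤ κ₂ y → κ₃ a ≤ κ₃ z →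
      x = a ∧ y = a ∧ z = a)
    (hd : T a a a ≠ 0) {r₁ r₂ r₃ : ℕ}
    (f₁ : Fin r₁ → X → K) (g₁ : Fin r₁ → X → X → K)
    (f₂ : Fin r₂ → X → K) (g₂ : Fin r₂ → X → X → K)
    (f₃ : Fin r₃ → X → K) (g₃ : Fin r₃ → X → X → K)
    (hsl : ∀ x y z, T x y z =
        ∑ i, f₁ i x * g₁ i y z + ∑ i, f₂ i y * g₂ i x z + ∑ i, f₃ i z * g₃ i x y)
    (h₁ : ∃ α : X → K, (∀ i, ∑ x, α x * f₁ i x = 0) ∧ α a ≠ 0 ∧ ∀ x, α x ≠ 0 → κ₁ a ≤ κ₁ x)
    (h₂ : ∃ α : X → K, (∀ i, ∑ x, α x * f₂ i x = 0) ∧ α a ≠ 0 ∧ ∀ x, α x ≠ 0 → κ₂ a ≤ κ₂ x)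
    (h₃ : ∃ α : X → K, (∀ i, ∑ x, α x * f₃ i x = 0) ∧ α a ≠ 0 ∧ ∀ x, α x ≠ 0 → κ₃ a ≤ κ₃ x) :
    False := by
  obtain ⟨α, hα, hαa, hαs⟩ := h₁
  obtain ⟨β, hβ, hβa, hβs⟩ := h₂
  obtain ⟨γ, hγ, hγa, hγs⟩ := h₃
  have hval : ∑ x, ∑ y, ∑ z, α x * β y * γ z * T x y z = α a * β a * γ a * T a a a := by
    rw [sum_eq_single a, sum_eq_single a, sum_eq_single a]
    · intro z _ hz
      by_contra hne
      have hTz : T a a z ≠ 0 := fun h => hne (by rw [h, mul_zero])
      have hγz : γ z ≠ 0 := fun h => hne (by rw [h, mul_zero, zero_mul])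
      exact hz (hcert a a z hTz le_rfl le_rfl (hγs z hγz)).2.2
    · intro h; exact absurd (mem_univ a) h
    · intro y _ hy
      refine sum_eq_zero fun z _ => ?_
      by_contra hne
      have hTz : T a y z ≠ 0 := fun h => hne (by rw [h, mul_zero])
      have hγz : γ z ≠ 0 := fun h => hne (by rw [h, mul_zero, zero_mul])
      have hβy : β y ≠ 0 := fun h => hne (by rw [h, mul_zero, zero_mul, zero_mul])
      exact hy (hcert a y z hTz le_rfl (hβs y hβy) (hγs z hγz)).2.1
    · intro h; exact absurd (mem_univ a) h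
    · intro x _ hx
      refine sum_eq_zero fun y _ => sum_eq_zero fun z _ => ?_
      by_contra hne
      have hTz : T x y z ≠ 0 := fun h => hne (by rw [h, mul_zero])
      have hγz : γ z ≠ 0 := fun h => hne (by rw [h, mul_zero, zero_mul])
      have hβy : β y ≠ 0 := fun h => hne (by rw [h, mul_zero, zero_mul, zero_mul])
      have hαx : α x ≠ 0 := fun h => hne (by rw [h, zero_mul, zero_mul, zero_mul])
      exact hx (hcert x y z hTz (hαs x hαx) (hβs y hβy) (hγs z hγz)).1
    · intro h; exact absurd (mem_univ a) h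
  have hzero : ∑ x, ∑ y, ∑ z, α x * β y * γ z * T x y z = 0 := by
    have e1 : ∑ x, ∑ y, ∑ z, α x * β y * γ z * (∑ i, f₁ i x * g₁ i y z) = 0 := by
      calc ∑ x, ∑ y, ∑ z, α x * β y * γ z * (∑ i, f₁ i x * g₁ i y z)
          = ∑ i, ∑ y, ∑ z, β y * γ z * g₁ i y z * ∑ x, α x * f₁ i x := by
            simp only [mul_sum]
            rw [sum_comm]
            rw [sum_congr rfl fun y _ => sum_comm]
            rw [sum_congr rfl fun y _ => sum_congr rfl fun z _ => sum_comm]
            rw [sum_congr rfl fun y _ => sum_comm]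
            rw [sum_comm]
            refine sum_congr rfl fun i _ => sum_congr rfl fun y _ => sum_congr rfl fun z _ =>
              sum_congr rfl fun x _ => by ring
        _ = 0 := by simp [hα]
    have e2 : ∑ x, ∑ y, ∑ z, α x * β y * γ z * (∑ i, f₂ i y * g₂ i x z) = 0 := by
      calc ∑ x, ∑ y, ∑ z, α x * β y * γ z * (∑ i, f₂ i y * g₂ i x z)
          = ∑ i, ∑ x, ∑ z, α x * γ z * g₂ i x z * ∑ y, β y * f₂ i y := by
            simp only [mul_sum]
            rw [sum_congr rfl fun x _ => sum_comm]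
            rw [sum_congr rfl fun x _ => sum_congr rfl fun z _ => sum_comm]
            rw [sum_congr rfl fun x _ => sum_comm]
            rw [sum_comm]
            refine sum_congr rfl fun i _ => sum_congr rfl fun y _ => sum_congr rfl fun z _ =>
              sum_congr rfl fun x _ => by ring
        _ = 0 := by simp [hβ]
    have e3 : ∑ x, ∑ y, ∑ z, α x * β y * γ z * (∑ i, f₃ i z * g₃ i x y) = 0 := by
      calc ∑ x, ∑ y, ∑ z, α x * β y * γ z * (∑ i, f₃ i z * g₃ i x y)
          = ∑ i, ∑ x, ∑ y, α x * β y * g₃ i x y * ∑ z, γ z * f₃ i z := by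
            simp only [mul_sum]
            rw [sum_congr rfl fun x _ => sum_congr rfl fun y _ => sum_comm]
            rw [sum_congr rfl fun x _ => sum_comm]
            rw [sum_comm]
            refine sum_congr rfl fun i _ => sum_congr rfl fun y _ => sum_congr rfl fun z _ =>
              sum_congr rfl fun x _ => by ring
        _ = 0 := by simp [hγ]
    calc ∑ x, ∑ y, ∑ z, α x * β y * γ z * T x y z
        = ∑ x, ∑ y, ∑ z, α x * β y * γ z * (∑ i, f₁ i x * g₁ i y z)
          + ∑ x, ∑ y, ∑ z, α x * β y * γ z * (∑ i, f₂ i y * g₂ i x z)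
          + ∑ x, ∑ y, ∑ z, α x * β y * γ z * (∑ i, f₃ i z * g₃ i x y) := by
          simp only [← sum_add_distrib, hsl, mul_add]
      _ = 0 := by rw [e1, e2, e3]; simp
  rw [hzero] at hval
  exact mul_ne_zero (mul_ne_zero (mul_ne_zero hαa hβa) hγa) hd hval.symm

theorem card_le_of_slice {X : Type*} [Fintype X] {K : Type*} [Field K]
    {L₁ L₂ L₃ : Type*} [LinearOrder L₁] [LinearOrder L₂] [LinearOrder L₃]
    (κ₁ : X → L₁) (κ₂ : X → L₂) (κ₃ : X → L₃) (Φ : X → X → X → Prop)
    (hcert : ∀ a x y z, Φ x y z → κ₁ a ≤ κ₁ x → κ₂ a ≤ κ₂ y → κ₃ a ≤ κ₃ z →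
      x = a ∧ y = a ∧ z = a)
    (T : X → X → X → K) (hT : ∀ x y z, T x y z ≠ 0 → Φ x y z) (hd : ∀ a, T a a a ≠ 0)
    {r : ℕ} (h : SliceLe T r) : Fintype.card X ≤ r := by
  classical
  obtain ⟨r₁, r₂, r₃, hr, f₁, g₁, f₂, g₂, f₃, g₃, hsl⟩ := h
  obtain ⟨B₁, hB₁, h₁⟩ := lead κ₁ f₁
  obtain ⟨B₂, hB₂, h₂⟩ := lead κ₂ f₂
  obtain ⟨B₃, hB₃, h₃⟩ := lead κ₃ f₃
  by_contra hlt
  push Not at hlt
  have hcard : (B₁ ∪ B₂ ∪ B₃).card < Fintype.card X := by
    have e1 := card_union_le (B₁ ∪ B₂) B₃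
    have e2 := card_union_le B₁ B₂
    omega
  obtain ⟨a, ha⟩ : ∃ a, a ∉ B₁ ∪ B₂ ∪ B₃ := by
    by_contra hcon
    push Not at hcon
    have : B₁ ∪ B₂ ∪ B₃ = univ := eq_univ_iff_forall.mpr hcon
    rw [this, card_univ] at hcard
    exact lt_irrefl _ hcard
  simp only [mem_union, not_or] at ha
  exact slice_false κ₁ κ₂ κ₃ a T (fun x y z hxyz => hcert a x y z (hT x y z hxyz)) (hd a)
    f₁ g₁ f₂ g₂ f₃ g₃ hsl (h₁ a ha.1.1) (h₂ a ha.1.2) (h₃ a ha.2)

end Helper64.RB
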