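import Pool.Agent.Helper64.RB.Pow

/-!
# Lower bounds for the constant in (R): potentials on `ZMod p ∖ {0}` for the differences 1, 2, 3
-/

namespace Helper64.RB.Frx

open Finset

theorem fracFree_of_potentials {p n : ℕ} [NeZero p] {D : Set (ZMod p)}
    {V : Finset (Fin n → ZMod p)} (u v : (Fin n → ZMod p) → ℝ)
    (h : ∀ x w : Fin n → ZMod p, w ≠ 0 → (∀ i, w i ∈ D) → x ∈ V → x + w ∈ V → x + w + w ∈ V →
      0 < u x - u (x + w + w) + (v (x + w) - v (x + w + w))) : FracFree D V := by
  classical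
  intro μ h0 hs h1 h2 x₀ w₀ hw₀
  have r2 : ∀ f : (Fin n → ZMod p) → ℝ,
      ∑ x, ∑ w, μ x w * f (x + w) = ∑ v, f v * ∑ w, μ (v - w) w := by
    intro f
    rw [sum_comm]
    have : ∀ w : Fin n → ZMod p, ∑ x, μ x w * f (x + w) = ∑ v, μ (v - w) w * f v := by
      intro w
      refine Fintype.sum_equiv (Equiv.addRight w) _ _ fun x => ?_
      simp
    simp only [this]
    rw [sum_comm]
    refine sum_congr rfl fun v _ => ?_
    rw [mul_sum]
    exact sum_congr rfl fun w _ => mul_comm _ _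
  have r3 : ∀ f : (Fin n → ZMod p) → ℝ,
      ∑ x, ∑ w, μ x w * f (x + w + w) = ∑ v, f v * ∑ w, μ (v - w - w) w := by
    intro f
    rw [sum_comm]
    have : ∀ w : Fin n → ZMod p, ∑ x, μ x w * f (x + w + w) = ∑ v, μ (v - w - w) w * f v := by
      intro w
      refine Fintype.sum_equiv (Equiv.addRight (w + w)) _ _ fun x => ?_
      simp [add_assoc, sub_sub]
    simp only [this]
    rw [sum_comm]
    refine sum_congr rfl fun v _ => ?_
    rw [mul_sum]
    exact sum_congr rfl fun w _ => mul_comm _ _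
  have r1 : ∀ f : (Fin n → ZMod p) → ℝ,
      ∑ x, ∑ w, μ x w * f x = ∑ v, f v * ∑ w, μ v w := by
    intro f
    refine sum_congr rfl fun x _ => ?_
    rw [mul_sum]
    exact sum_congr rfl fun w _ => mul_comm _ _
  have hzero : ∑ x, ∑ w, μ x w * (u x - u (x + w + w) + (v (x + w) - v (x + w + w))) = 0 := by
    simp only [mul_add, mul_sub, sum_add_distrib, sum_sub_distrib]
    rw [r1 u, r3 u, r2 v, r3 v]
    simp only [← h1, ← h2]
    ring
  have hterm : ∀ x w, 0 ≤ μ x w * (u x - u (x + w + w) + (v (x + w) - v (x + w + w))) := by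
    intro x w
    by_cases hμ : μ x w = 0
    · rw [hμ, zero_mul]
    · by_cases hw : w = 0
      · subst hw; simp
      · obtain ⟨a1, a2, a3, a4⟩ := hs x w hμ
        exact mul_nonneg (h0 x w) (h x w hw a1 a2 a3 a4).le
  by_contra hne
  obtain ⟨a1, a2, a3, a4⟩ := hs x₀ w₀ hne
  have hpos : 0 < μ x₀ w₀ * (u x₀ - u (x₀ + w₀ + w₀) + (v (x₀ + w₀) - v (x₀ + w₀ + w₀))) :=
    mul_pos (lt_of_le_of_ne (h0 _ _) (Ne.symm hne)) (h x₀ w₀ hw₀ a1 a2 a3 a4)
  have h5 : 0 < ∑ x, ∑ w, μ x w * (u x - u (x + w + w) + (v (x + w) - v (x + w + w))) := by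
    refine sum_pos' (fun x _ => sum_nonneg fun w _ => hterm x w) ⟨x₀, mem_univ _, ?_⟩
    exact sum_pos' (fun w _ => hterm x₀ w) ⟨w₀, mem_univ _, hpos⟩
  linarith

/-- `1` for even numbers, `0` for odd numbers -/
def ev (n : ℕ) : ℤ := if n % 2 = 0 then 1 else 0

/-- first potential (before scaling) -/
def fF (p X : ℕ) : ℤ := -(X : ℤ) ^ 2 + (p - 3) * X + p * ev X

/-- second potential (before scaling) -/
def fG (p X : ℕ) : ℤ := 2 * (X : ℤ) ^ 2 - 2 * p * X

/-- the slack of a line is `4` for `d = 1, 2` and `0` for `d = 3` -/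
theorem slack_nat {p d X Y Z : ℕ} (hp : p % 2 = 1) (hp5 : 5 ≤ p) (hd1 : 1 ≤ d) (hd3 : d ≤ 3)
    (hX0 : X ≠ 0) (hX : X < p) (hY0 : Y ≠ 0) (hY : (Y = X + d ∧ Y < p) ∨ Y + p = X + d)
    (hZ0 : Z ≠ 0) (hZ : (Z = Y + d ∧ Z < p) ∨ Z + p = Y + d) :
    fF p X - fF p Z + (fG p Y - fG p Z) = if d = 3 then 0 else 4 := by
  rcases hY with ⟨rfl, hY⟩ | hY
  · rcases hZ with ⟨rfl, hZ⟩ | hZ
    · -- no wrap
      have hev : ev (X + d + d) = ev X := by
        unfold ev
        have : (X + d + d) % 2 = X % 2 := by omega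
        rw [this]
      simp only [fF, fG, hev]
      push_cast
      interval_cases d <;> norm_num <;> ring
    · -- wrap between the second and the third point
      obtain ⟨j, hj⟩ : ∃ j, j + (X + d) = p := ⟨p - (X + d), by omega⟩
      have hZe : Z + j = d := by omega
      have hj1 : 1 ≤ j := by omega
      have hevs : ev X - ev Z = if Z % 2 = 1 then 1 else -1 := by
        unfold ev
        have hpar : X % 2 = 1 - Z % 2 := by omega
        rcases Nat.mod_two_eq_zero_or_one Z with h | h <;> rw [hpar, h] <;> norm_num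
      have hXe : (X : ℤ) = p - j - d := by
        have : ((j + (X + d) : ℕ) : ℤ) = p := by rw [hj]
        push_cast at this
        linarith
      have hd2 : 2 ≤ d := by omega
      simp only [fF, fG]
      push_cast
      have hcases : (d = 2 ∧ j = 1 ∧ Z = 1) ∨ (d = 3 ∧ j = 1 ∧ Z = 2) ∨ (d = 3 ∧ j = 2 ∧ Z = 1) := by
        omega
      rcases hcases with ⟨rfl, rfl, rfl⟩ | ⟨rfl, rfl, rfl⟩ | ⟨rfl, rfl, rfl⟩
      · have e : ev X = ev 1 + 1 := by
          have := hevs; norm_num at this; linarith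
        rw [e, hXe]
        norm_num
        ring
      · have e : ev X = ev 2 - 1 := by
          have := hevs; norm_num at this; linarith
        rw [e, hXe]
        norm_num
        ring
      · have e : ev X = ev 1 + 1 := by
          have := hevs; norm_num at this; linarith
        rw [e, hXe]
        norm_num
        ring
  · -- wrap between the first and the second point
    obtain ⟨j, hj⟩ : ∃ j, j + X = p := ⟨p - X, by omega⟩
    have hYe : Y + j = d := by omega
    have hj1 : 1 ≤ j := by omega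
    have hZ' : Z = Y + d := by omega
    have hXe : (X : ℤ) = p - j := by
      have : ((j + X : ℕ) : ℤ) = p := by rw [hj]
      push_cast at this
      linarith
    have hevs : ev X - ev Z = if Z % 2 = 1 then 1 else -1 := by
      unfold ev
      have hpar : X % 2 = 1 - Z % 2 := by omega
      rcases Nat.mod_two_eq_zero_or_one Z with h | h <;> rw [hpar, h] <;> norm_num
    have hd2 : 2 ≤ d := by omega
    simp only [fF, fG]
    have hcases : (d = 2 ∧ j = 1 ∧ Y = 1 ∧ Z = 3) ∨ (d = 3 ∧ j = 1 ∧ Y = 2 ∧ Z = 5) ∨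
        (d = 3 ∧ j = 2 ∧ Y = 1 ∧ Z = 4) := by
      omega
    rcases hcases with ⟨rfl, rfl, rfl, rfl⟩ | ⟨rfl, rfl, rfl, rfl⟩ | ⟨rfl, rfl, rfl, rfl⟩
    · have e : ev X = ev 3 + 1 := by
        have := hevs; norm_num at this; linarith
      rw [e, hXe]
      norm_num
      ring
    · have e : ev X = ev 5 + 1 := by
        have := hevs; norm_num at this; linarith
      rw [e, hXe]
      norm_num
      ring
    · have e : ev X = ev 4 - 1 := by
        have := hevs; norm_num at this; linarith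
      rw [e, hXe]
      norm_num
      ring

/-- the third of a residue, as a natural number -/
def tau (p X : ℕ) : ℕ := ((3 : ZMod p)⁻¹ * (X : ZMod p)).val

theorem tau_add {p X Y : ℕ} [Fact p.Prime] (hp5 : 5 ≤ p) (hY0 : Y ≠ 0) (hY : Y < p)
    (h : Y = X + 3 ∨ Y + p = X + 3) : tau p Y = tau p X + 1 := by
  have h3 : (3 : ZMod p) ≠ 0 := by
    have : ((3 : ℕ) : ZMod p) ≠ 0 := by
      rw [Ne, ZMod.natCast_eq_zero_iff]
      intro hd
      have := Nat.le_of_dvd (by norm_num) hd
      omega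
    exact_mod_cast this
  have hYc : (Y : ZMod p) = X + 3 := by
    rcases h with h | h
    · rw [h]; push_cast; ring
    · have : ((Y + p : ℕ) : ZMod p) = ((X + 3 : ℕ) : ZMod p) := by rw [h]
      push_cast at this
      simpa using this
  have hYne : (Y : ZMod p) ≠ 0 := by
    rw [Ne, ZMod.natCast_eq_zero_iff]
    intro hd
    have := Nat.le_of_dvd (Nat.pos_of_ne_zero hY0) hd
    omega
  have e : (3 : ZMod p)⁻¹ * (Y : ZMod p) = (3 : ZMod p)⁻¹ * (X : ZMod p) + 1 := by
    rw [hYc, mul_add, inv_mul_cancel₀ h3]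
  have hne : (3 : ZMod p)⁻¹ * (Y : ZMod p) ≠ 0 := mul_ne_zero (inv_ne_zero h3) hYne
  unfold tau
  rw [e] at hne ⊢
  haveI : Fact (1 < p) := ⟨by omega⟩
  set a := (3 : ZMod p)⁻¹ * (X : ZMod p)
  have ha := ZMod.val_lt a
  have hlt : a.val + (1 : ZMod p).val < p := by
    rw [ZMod.val_one]
    by_contra hcon
    have hval : a.val + 1 = p := by omega
    apply hne
    have : ((a.val + 1 : ℕ) : ZMod p) = 0 := by rw [hval]; simp
    push_cast at this
    rwa [ZMod.natCast_zmod_val] at this
  rw [ZMod.val_add_of_lt hlt, ZMod.val_one]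

theorem tau_lt {p X : ℕ} [Fact p.Prime] : tau p X < p := ZMod.val_lt _

/-- the value of the scaled sum -/
def sv {p m : ℕ} (c : ZMod p) (x : Fin m → ZMod p) : ℕ := (c⁻¹ * ∑ i, x i).val

/-- vectors with non-zero sum -/
def nz (p m : ℕ) [NeZero p] : Finset (Fin m → ZMod p) :=
  Finset.univ.filter fun x => ∑ i, x i ≠ 0

theorem sv_step {p m d : ℕ} [Fact p.Prime] (hd : d < p) {c : ZMod p}
    (x w : Fin m → ZMod p) (hw : c⁻¹ * ∑ i, w i = (d : ZMod p)) :
    (sv c (x + w) = sv c x + d ∧ sv c (x + w) < p) ∨ sv c (x + w) + p = sv c x + d := by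
  have e : c⁻¹ * ∑ i, (x + w) i = ((sv c x + d : ℕ) : ZMod p) := by
    simp only [Pi.add_apply, sum_add_distrib, mul_add, hw]
    push_cast
    unfold sv
    rw [ZMod.natCast_zmod_val]
  have h1 : sv c (x + w) = (sv c x + d) % p := by
    conv_lhs => unfold sv
    rw [e, ZMod.val_natCast]
  have h2 : sv c x < p := ZMod.val_lt _
  by_cases h : sv c x + d < p
  · left
    rw [Nat.mod_eq_of_lt h] at h1
    exact ⟨h1, by omega⟩
  · right
    rw [Nat.mod_eq_sub_mod (by omega), Nat.mod_eq_of_lt (by omega)] at h1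
    omega

theorem fracFree_nz {p m k : ℕ} [Fact p.Prime] (hp5 : 5 ≤ p) (hkm : k * m ≤ 3) {c : ZMod p}
    (hc : c ≠ 0) {D : Set (ZMod p)} (hD : ∀ t ∈ D, ∃ j : ℕ, j ≤ k ∧ t = j * c) :
    FracFree D (nz p m) := by
  classical
  refine fracFree_of_potentials
    (fun x => ((p : ℤ) * fF p (sv c x) - tau p (sv c x) : ℤ))
    (fun x => ((p : ℤ) * fG p (sv c x) : ℤ)) ?_
  intro x w hw0 hwD hx hy hz
  choose j hj1 hj2 using fun i => hD (w i) (hwD i)
  set d := ∑ i, j i with hd
  have hsum : c⁻¹ * ∑ i, w i = (d : ZMod p) := by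
    rw [hd]
    push_cast
    rw [mul_sum]
    refine sum_congr rfl fun i _ => ?_
    rw [hj2 i, mul_comm, mul_assoc, mul_inv_cancel₀ hc, mul_one]
  have hd1 : 1 ≤ d := by
    by_contra hcon
    have h0 : d = 0 := by omega
    rw [hd, sum_eq_zero_iff] at h0
    apply hw0
    funext i
    rw [hj2 i, h0 i (mem_univ i)]
    simp
  have hd3 : d ≤ 3 := by
    calc d ≤ ∑ _i : Fin m, k := sum_le_sum fun i _ => hj1 i
      _ = k * m := by simp [mul_comm]
      _ ≤ 3 := hkm
  have hval : ∀ y ∈ nz p m, sv c y ≠ 0 := by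
    intro y hy h0
    simp only [nz, mem_filter, mem_univ, true_and] at hy
    have : c⁻¹ * ∑ i, y i = 0 := (ZMod.val_eq_zero _).1 h0
    rcases mul_eq_zero.1 this with h | h
    · exact inv_ne_zero hc h
    · exact hy h
  have hodd : p % 2 = 1 := by
    rcases (Fact.out : p.Prime).eq_two_or_odd with h | h
    · omega
    · exact h
  have hX0 := hval _ hx
  have hY0 := hval _ hy
  have hZ0 := hval _ hz
  have hXp : sv c x < p := ZMod.val_lt _
  have hYp : sv c (x + w) < p := ZMod.val_lt _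
  have hZp : sv c (x + w + w) < p := ZMod.val_lt _
  have hY := sv_step (by omega : d < p) x w hsum
  have hZ := sv_step (by omega : d < p) (x + w) w hsum
  have hslack := slack_nat hodd hp5 hd1 hd3 hX0 hXp hY0 hY hZ0 hZ
  generalize sv c x = X at *
  generalize sv c (x + w) = Y at *
  generalize sv c (x + w + w) = Z at *
  have key : 0 < ((p : ℤ) * fF p X - tau p X) - ((p : ℤ) * fF p Z - tau p Z)
      + ((p : ℤ) * fG p Y - (p : ℤ) * fG p Z) := by
    have e : ((p : ℤ) * fF p X - tau p X) - ((p : ℤ) * fF p Z - tau p Z)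
      + ((p : ℤ) * fG p Y - (p : ℤ) * fG p Z)
      = p * (fF p X - fF p Z + (fG p Y - fG p Z)) - tau p X + tau p Z := by ring
    rw [e, hslack]
    by_cases h3 : d = 3
    · rw [if_pos h3]
      have t1 : tau p Y = tau p X + 1 := tau_add hp5 hY0 hYp (by rcases hY with h | h <;> omega)
      have t2 : tau p Z = tau p Y + 1 := tau_add hp5 hZ0 hZp (by rcases hZ with h | h <;> omega)
      rw [t2, t1]
      push_cast
      linarith
    · rw [if_neg h3]
      have t1 : tau p X < p := tau_lt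
      have t1' : (tau p X : ℤ) < p := by exact_mod_cast t1
      have t2 : (0 : ℤ) ≤ tau p Z := Int.natCast_nonneg _
      have t3 : (0 : ℤ) < p := by omega
      nlinarith
  have key' : (0 : ℝ) < ((((p : ℤ) * fF p X - tau p X) - ((p : ℤ) * fF p Z - tau p Z)
      + ((p : ℤ) * fG p Y - (p : ℤ) * fG p Z) : ℤ) : ℝ) := by exact_mod_cast key
  push_cast at key' ⊢
  linarith

theorem card_nz {p m : ℕ} [NeZero p] : p ^ (m + 1) - p ^ m ≤ (nz p (m + 1)).card := by
  classical
  have h1 : (Finset.univ.filter fun x : Fin (m + 1) → ZMod p => ∑ i, x i = 0).card ≤ p ^ m := by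
    have : (Finset.univ : Finset (Fin m → ZMod p)).card = p ^ m := by
      simp [ZMod.card]
    rw [← this]
    refine card_le_card_of_injOn (fun x => Fin.tail x) (fun x _ => mem_univ _) ?_
    intro x hx y hy hxy
    simp only [coe_filter, mem_univ, true_and, Set.mem_setOf_eq] at hx hy
    rw [Fin.sum_univ_succ] at hx hy
    have ht : ∀ i : Fin m, x i.succ = y i.succ := fun i => congrFun hxy i
    funext i
    refine Fin.cases ?_ (fun i => ht i) i
    have hs : ∑ i : Fin m, x i.succ = ∑ i : Fin m, y i.succ := sum_congr rfl fun i _ => ht i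
    rw [hs] at hx
    exact add_right_cancel (hx.trans hy.symm)
  have h2 : (Finset.univ.filter fun x : Fin (m + 1) → ZMod p => ∑ i, x i = 0).card
      + (nz p (m + 1)).card = p ^ (m + 1) := by
    have := card_filter_add_card_filter_not
      (s := (Finset.univ : Finset (Fin (m + 1) → ZMod p))) (fun x => ∑ i, x i = 0)
    rw [nz]
    simpa [ZMod.card] using this
  omega

end Helper64.RB.Frx
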