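import Pool.Agent.Helper64.RB.Frx

/-!
# Powers of fractionally free sets
-/

namespace Helper64.RB.Frx

open Finset

theorem exists_gap {α : Type*} (S : Finset α) (g : α → ℝ) (h : ∀ a ∈ S, 0 < g a) :
    ∃ ε : ℝ, 0 < ε ∧ ∀ a ∈ S, ε ≤ g a := by
  classical
  rcases S.eq_empty_or_nonempty with rfl | hne
  · exact ⟨1, one_pos, by simp⟩
  · obtain ⟨a, ha, hmin⟩ := S.exists_min_image g hne
    exact ⟨g a, h a ha, hmin⟩

/-- concatenation -/
def cat {p N n : ℕ} (ξ : Fin N → Fin n → ZMod p) : Fin (N * n) → ZMod p :=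
  fun k => ξ (finProdFinEquiv.symm k).1 (finProdFinEquiv.symm k).2

theorem cat_injective {p N n : ℕ} : Function.Injective (cat (p := p) (N := N) (n := n)) := by
  intro ξ ζ h
  funext j i
  have := congrFun h (finProdFinEquiv (j, i))
  simpa [cat] using this

theorem exists_cat {p N n : ℕ} (w : Fin (N * n) → ZMod p) :
    ∃ ω : Fin N → Fin n → ZMod p, cat ω = w :=
  ⟨fun j i => w (finProdFinEquiv (j, i)), by
    funext k
    simp only [cat, Prod.mk.eta, Equiv.apply_symm_apply]⟩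

theorem cat_add {p N n : ℕ} (ξ ζ : Fin N → Fin n → ZMod p) : cat (ξ + ζ) = cat ξ + cat ζ := rfl

/-- the counting bound for one power -/
theorem power_bound {p n : ℕ} [NeZero p] {D : Set (ZMod p)} {C : ℝ}
    (hC : ∀ (m : ℕ) (A : Finset (Fin m → ZMod p)), DFree D A → (A.card : ℝ) ≤ C ^ m)
    {V : Finset (Fin n → ZMod p)} {u v : (Fin n → ZMod p) → ℝ} {ε K : ℝ} (hε : 0 < ε)
    (hgap : ∀ x w : Fin n → ZMod p, w ≠ 0 → (∀ i, w i ∈ D) → x ∈ V → x + w ∈ V → x + w + w ∈ V →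
      ε ≤ u x - u (x + w + w) + (v (x + w) - v (x + w + w)))
    (hK : ∀ x, |u x| ≤ K ∧ |v x| ≤ K) (N : ℕ) :
    (V.card : ℝ) ^ N ≤ (2 * (N * K / (ε / 4)) + 5) ^ 2 * C ^ (N * n) := by
  classical
  have hK0 : 0 ≤ K := (abs_nonneg _).trans (hK 0).1
  set η := ε / 4 with hη
  have hη0 : 0 < η := by positivity
  set U : (Fin N → Fin n → ZMod p) → ℝ := fun ξ => ∑ j, u (ξ j) with hU
  set W : (Fin N → Fin n → ZMod p) → ℝ := fun ξ => ∑ j, v (ξ j) with hW
  set P := Fintype.piFinset (fun _ : Fin N => V) with hP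
  set κ : (Fin N → Fin n → ZMod p) → ℤ × ℤ := fun ξ => (⌊U ξ / η⌋, ⌊W ξ / η⌋) with hκ
  set L : ℕ := ⌈(N : ℝ) * K / η⌉₊ + 1 with hL
  set T : Finset (ℤ × ℤ) := Icc (-(L : ℤ)) L ×ˢ Icc (-(L : ℤ)) L with hT
  have habs : ∀ f : (Fin n → ZMod p) → ℝ, (∀ x, |f x| ≤ K) → ∀ ξ : Fin N → Fin n → ZMod p,
      |∑ j, f (ξ j)| ≤ N * K := by
    intro f hf ξ
    calc |∑ j, f (ξ j)| ≤ ∑ j, |f (ξ j)| := abs_sum_le_sum_abs _ _
      _ ≤ ∑ _j : Fin N, K := sum_le_sum fun j _ => hf _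
      _ = N * K := by simp
  have hfl : ∀ t : ℝ, |t| ≤ N * K → ⌊t / η⌋ ∈ Icc (-(L : ℤ)) L := by
    intro t ht
    have h1 : |t / η| ≤ N * K / η := by
      rw [abs_div, abs_of_pos hη0]
      exact div_le_div_of_nonneg_right ht hη0.le
    have h2 : (N : ℝ) * K / η ≤ ⌈(N : ℝ) * K / η⌉₊ := Nat.le_ceil _
    obtain ⟨h3, h4⟩ := abs_le.mp h1
    rw [mem_Icc]
    constructor
    · rw [Int.le_floor]
      push_cast [hL]
      linarith
    · have : (⌊t / η⌋ : ℝ) ≤ L := by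
        push_cast [hL]
        linarith [Int.floor_le (t / η)]
      exact_mod_cast this
  have hmaps : ∀ ξ ∈ P, κ ξ ∈ T := by
    intro ξ _
    simp only [hκ, hT, mem_product]
    exact ⟨hfl _ (habs u (fun x => (hK x).1) ξ), hfl _ (habs v (fun x => (hK x).2) ξ)⟩
  have hTc : (T.card : ℝ) = (2 * L + 1) ^ 2 := by
    have : (Icc (-(L : ℤ)) L).card = 2 * L + 1 := by
      rw [Int.card_Icc]; omega
    rw [hT, card_product, this]
    push_cast
    ring
  -- fibres are free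
  have hfree : ∀ y : ℤ × ℤ, DFree D ((P.filter fun ξ => κ ξ = y).image cat) := by
    intro y x w hw hx hy hz
    obtain ⟨ξ, hξ, rfl⟩ := mem_image.mp hx
    obtain ⟨ω, rfl⟩ := exists_cat w
    rw [← cat_add] at hy hz
    rw [← cat_add] at hz
    have hy' : ξ + ω ∈ P.filter fun ξ => κ ξ = y := by
      obtain ⟨ζ, hζ, hζe⟩ := mem_image.mp hy
      rwa [← cat_injective hζe]
    have hz' : ξ + ω + ω ∈ P.filter fun ξ => κ ξ = y := by
      obtain ⟨ζ, hζ, hζe⟩ := mem_image.mp hz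
      rwa [← cat_injective hζe]
    obtain ⟨px, kx⟩ := mem_filter.mp hξ
    obtain ⟨py, ky⟩ := mem_filter.mp hy'
    obtain ⟨pz, kz⟩ := mem_filter.mp hz'
    have hωD : ∀ j i, ω j i ∈ D := by
      intro j i
      have := hw (finProdFinEquiv (j, i))
      simpa [cat] using this
    have memV : ∀ j, ξ j ∈ V ∧ ξ j + ω j ∈ V ∧ ξ j + ω j + ω j ∈ V := fun j =>
      ⟨Fintype.mem_piFinset.mp px j, Fintype.mem_piFinset.mp py j, Fintype.mem_piFinset.mp pz j⟩
    set G : Fin N → ℝ := fun j => u (ξ j) - u (ξ j + ω j + ω j) +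
      (v (ξ j + ω j) - v (ξ j + ω j + ω j)) with hG
    have hG0 : ∀ j, 0 ≤ G j := by
      intro j
      by_cases h : ω j = 0
      · simp [hG, h]
      · exact hε.le.trans (hgap _ _ h (hωD j) (memV j).1 (memV j).2.1 (memV j).2.2)
    have hsum : ∑ j, G j = (U ξ - U (ξ + ω + ω)) + (W (ξ + ω) - W (ξ + ω + ω)) := by
      simp only [hG, hU, hW, sum_add_distrib, sum_sub_distrib, Pi.add_apply]
    have hdiff : ∀ s t : ℝ, ⌊s / η⌋ = ⌊t / η⌋ → s - t < η := by
      intro s t h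
      have h1 := Int.lt_floor_add_one (s / η)
      have h2 := Int.floor_le (t / η)
      rw [h] at h1
      have h3 : s / η - t / η < 1 := by linarith
      rw [← sub_div, div_lt_one hη0] at h3
      exact h3
    have hlt : ∑ j, G j < ε := by
      have e1 := hdiff (U ξ) (U (ξ + ω + ω)) (by
        have := kx.trans kz.symm
        simp only [hκ, Prod.mk.injEq] at this
        exact this.1)
      have e2 := hdiff (W (ξ + ω)) (W (ξ + ω + ω)) (by
        have := ky.trans kz.symm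
        simp only [hκ, Prod.mk.injEq] at this
        exact this.2)
      rw [hsum]
      have : η + η ≤ ε := by rw [hη]; linarith
      linarith
    have hω0 : ω = 0 := by
      funext j
      by_contra hne
      have h1 : ε ≤ G j := hgap _ _ hne (hωD j) (memV j).1 (memV j).2.1 (memV j).2.2
      have h2 : G j ≤ ∑ j, G j := single_le_sum (fun i _ => hG0 i) (mem_univ j)
      linarith
    rw [hω0]
    rfl
  have hfib : ∀ y : ℤ × ℤ, ((P.filter fun ξ => κ ξ = y).card : ℝ) ≤ C ^ (N * n) := by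
    intro y
    have := hC (N * n) _ (hfree y)
    rwa [card_image_of_injective _ cat_injective] at this
  have hPc : (P.card : ℝ) = (V.card : ℝ) ^ N := by
    rw [hP, Fintype.card_piFinset]
    simp
  have hCn : (0 : ℝ) ≤ C ^ (N * n) := le_trans (Nat.cast_nonneg _) (hfib (0, 0))
  calc (V.card : ℝ) ^ N = P.card := hPc.symm
    _ = ∑ y ∈ T, ((P.filter fun ξ => κ ξ = y).card : ℝ) := by
        rw [card_eq_sum_card_fiberwise hmaps]
        push_cast
        rfl
    _ ≤ ∑ _y ∈ T, C ^ (N * n) := sum_le_sum fun y _ => hfib y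
    _ = T.card * C ^ (N * n) := by simp
    _ = (2 * L + 1) ^ 2 * C ^ (N * n) := by rw [hTc]
    _ ≤ (2 * (N * K / η) + 5) ^ 2 * C ^ (N * n) := by
        have h0 : 0 ≤ (N : ℝ) * K / η := by positivity
        have h1 : (L : ℝ) ≤ N * K / η + 2 := by
          push_cast [hL]
          linarith [Nat.ceil_lt_add_one h0]
        have h2 : (0 : ℝ) ≤ L := Nat.cast_nonneg _
        exact mul_le_mul_of_nonneg_right (pow_le_pow_left₀ (by positivity) (by linarith) 2) hCn

theorem limit_bound {s t c d : ℝ} (hs : 0 < s) (hc : 0 ≤ c) (hd : 0 ≤ d)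
    (h : ∀ N : ℕ, t ^ N ≤ (c * N + d) ^ 2 * s ^ N) : t ≤ s := by
  by_contra hlt
  push Not at hlt
  set ρ := t / s with hρ
  have hρ1 : 1 < ρ := by rw [hρ, one_lt_div hs]; exact hlt
  have hρN : ∀ N : ℕ, ρ ^ N ≤ (c * N + d) ^ 2 := by
    intro N
    rw [hρ, div_pow, div_le_iff₀ (pow_pos hs N)]
    exact h N
  have hlim := tendsto_pow_const_div_const_pow_of_one_lt 2 hρ1
  have hlim' : Filter.Tendsto (fun N : ℕ => (c + d) ^ 2 * ((N : ℝ) ^ 2 / ρ ^ N)) Filter.atTop
      (nhds ((c + d) ^ 2 * 0)) := hlim.const_mul _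
  rw [mul_zero] at hlim'
  have hge : ∀ᶠ N : ℕ in Filter.atTop, (1 : ℝ) ≤ (c + d) ^ 2 * ((N : ℝ) ^ 2 / ρ ^ N) := by
    filter_upwards [Filter.eventually_ge_atTop 1] with N hN
    have hN1 : (1 : ℝ) ≤ N := by exact_mod_cast hN
    have hpos : 0 < ρ ^ N := pow_pos (by linarith) N
    rw [← mul_div_assoc, one_le_div hpos, ← mul_pow]
    refine (hρN N).trans ?_
    have : c * N + d ≤ (c + d) * N := by nlinarith
    exact pow_le_pow_left₀ (by positivity) this 2
  have := ge_of_tendsto hlim' hge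
  linarith

theorem frac_bound {p n : ℕ} [NeZero p] {D : Set (ZMod p)} {C : ℝ}
    (hC : ∀ (m : ℕ) (A : Finset (Fin m → ZMod p)), DFree D A → (A.card : ℝ) ≤ C ^ m)
    {V : Finset (Fin n → ZMod p)} (hV : FracFree D V) : (V.card : ℝ) ≤ C ^ n := by
  classical
  obtain ⟨u, v, huv⟩ := hV.potentials
  obtain ⟨ε, hε, hgap⟩ := exists_gap
    (univ.filter fun q : (Fin n → ZMod p) × (Fin n → ZMod p) => q.2 ≠ 0 ∧ (∀ i, q.2 i ∈ D) ∧
      q.1 ∈ V ∧ q.1 + q.2 ∈ V ∧ q.1 + q.2 + q.2 ∈ V)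
    (fun q => u q.1 - u (q.1 + q.2 + q.2) + (v (q.1 + q.2) - v (q.1 + q.2 + q.2)))
    (fun q hq => by
      obtain ⟨-, h1, h2, h3, h4, h5⟩ := mem_filter.mp hq
      exact huv _ _ h1 h2 h3 h4 h5)
  set K := ∑ x, (|u x| + |v x|) with hK
  have hKb : ∀ x, |u x| ≤ K ∧ |v x| ≤ K := by
    intro x
    have h1 : |u x| + |v x| ≤ K :=
      single_le_sum (f := fun x => |u x| + |v x|) (fun i _ => by positivity) (mem_univ x)
    exact ⟨by linarith [abs_nonneg (v x)], by linarith [abs_nonneg (u x)]⟩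
  have hK0 : 0 ≤ K := sum_nonneg fun i _ => by positivity
  have hC1 : (1 : ℝ) ≤ C := by
    have := hC 1 {0} (by
      intro x w _ hx hxw _
      rw [mem_singleton] at hx hxw
      rw [hx, zero_add] at hxw
      exact hxw)
    simpa using this
  refine limit_bound (s := C ^ n) (c := 2 * (K / (ε / 4))) (d := 5) (by positivity) (by positivity)
    (by norm_num) fun N => ?_
  have := power_bound hC hε (fun x w h1 h2 h3 h4 h5 =>
    hgap (x, w) (mem_filter.mpr ⟨mem_univ _, h1, h2, h3, h4, h5⟩)) hKb N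
  calc (V.card : ℝ) ^ N ≤ (2 * (N * K / (ε / 4)) + 5) ^ 2 * C ^ (N * n) := this
    _ = (2 * (K / (ε / 4)) * N + 5) ^ 2 * (C ^ n) ^ N := by
        rw [← pow_mul, mul_comm N n]
        ring

end Helper64.RB.Frx
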