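import Mathlib

/-!
# Large tricoloured families of `D`-lines, `|D| = 2`

Lines are `(x, x + w, x + 2w)` in `(ZMod p)^n` with `w ∈ {0, δ}^n`. Random linear forms modulo a
prime `M` of size about `2^n` and a set without three term progressions leave many isolated lines.
-/

namespace Helper64.RB.Tri

open Finset

variable {p M n : ℕ}

/-- A line: starting point and the support of its difference. -/
abbrev Ln (p n : ℕ) := (Fin n → ZMod p) × (Fin n → Bool)

/-- the difference -/
def wv (δ : ZMod p) (e : Fin n → Bool) : Fin n → ZMod p := fun i => if e i then δ else 0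

/-- second point -/
def py (δ : ZMod p) (l : Ln p n) : Fin n → ZMod p := l.1 + wv δ l.2

/-- third point -/
def pz (δ : ZMod p) (l : Ln p n) : Fin n → ZMod p := l.1 + wv δ l.2 + wv δ l.2

/-- embedding of the residues modulo `p` -/
def g (M : ℕ) (a : ZMod p) : ZMod M := (a.val : ZMod M)

def U (r : Fin n → ZMod M) (x : Fin n → ZMod p) : ZMod M := ∑ i, r i * g M (x i)

def W (δ : ZMod p) (r : Fin n → ZMod M) (z : Fin n → ZMod p) : ZMod M :=
  ∑ i, r i * g M (z i - δ)

def V (δ : ZMod p) (r : Fin n → ZMod M) (y : Fin n → ZMod p) : ZMod M :=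
  ∑ i, r i * (g M (y i) + g M (y i - δ))

theorem UWV (δ : ZMod p) (r : Fin n → ZMod M) (l : Ln p n) :
    U r l.1 + W δ r (pz δ l) = V δ r (py δ l) := by
  unfold U W V
  rw [← sum_add_distrib]
  refine sum_congr rfl fun i _ => ?_
  rw [← mul_add]
  congr 1
  simp only [pz, py, wv, Pi.add_apply]
  by_cases h : l.2 i
  · simp only [h, if_true]
    rw [show l.1 i + δ + δ - δ = l.1 i + δ by ring, show l.1 i + δ - δ = l.1 i by ring, add_comm]
  · simp only [h, Bool.false_eq_true, if_false, add_zero]

/-- a line is selected by the parameters `ω = (r, s₀, s₁)` -/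
def Sel (δ : ZMod p) (S : Finset ℕ) (ω : (Fin n → ZMod M) × ZMod M × ZMod M) (l : Ln p n) : Prop :=
  ∃ s ∈ S, U ω.1 l.1 + ω.2.1 = (s : ZMod M) ∧ W δ ω.1 (pz δ l) + ω.2.2 = (s : ZMod M)

/-- The condition for a line in terms of its three points. -/
theorem sel_of_points (δ : ZMod p) (N : ℕ) (hN : 2 * N ≤ M + 1) (S : Finset ℕ)
    (hS : S ⊆ range N) (hS3 : ThreeAPFree (S : Set ℕ))
    (ω : (Fin n → ZMod M) × ZMod M × ZMod M) (l l₁ l₂ l₃ : Ln p n)
    (h₁ : Sel δ S ω l₁) (h₂ : Sel δ S ω l₂) (h₃ : Sel δ S ω l₃)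
    (e₁ : l.1 = l₁.1) (e₂ : py δ l = py δ l₂) (e₃ : pz δ l = pz δ l₃) : Sel δ S ω l := by
  obtain ⟨s, hs, a₁, -⟩ := h₁
  obtain ⟨t, ht, b₁, b₂⟩ := h₂
  obtain ⟨u, hu, -, c₂⟩ := h₃
  rw [← e₁] at a₁
  rw [← e₃] at c₂
  have hV : V δ ω.1 (py δ l) + (ω.2.1 + ω.2.2) = (t : ZMod M) + t := by
    rw [e₂, ← UWV, ← b₁]
    nth_rewrite 2 [b₁]
    rw [← b₂]
    ring
  have hV' : V δ ω.1 (py δ l) + (ω.2.1 + ω.2.2) = (s : ZMod M) + u := by
    rw [← UWV, ← a₁, ← c₂]
    ring
  have hst : ((s + u : ℕ) : ZMod M) = ((t + t : ℕ) : ZMod M) := by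
    push_cast
    rw [← hV', hV]
  have hs' := mem_range.mp (hS hs)
  have ht' := mem_range.mp (hS ht)
  have hu' := mem_range.mp (hS hu)
  have h4 : s + u = t + t := by
    have := (ZMod.natCast_eq_natCast_iff' _ _ _).mp hst
    rw [Nat.mod_eq_of_lt (by omega), Nat.mod_eq_of_lt (by omega)] at this
    exact this
  have h5 : s = t := hS3 (by exact_mod_cast hs) (by exact_mod_cast ht) (by exact_mod_cast hu) h4
  have h6 : u = s := by omega
  exact ⟨s, hs, a₁, by rw [c₂, h6]⟩

theorem g_inj [NeZero p] (hpM : p ≤ M) {a b : ZMod p} (h : g M a = g M b) : a = b := by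
  unfold g at h
  have ha := ZMod.val_lt a
  have hb := ZMod.val_lt b
  have := (ZMod.natCast_eq_natCast_iff' _ _ _).mp h
  rw [Nat.mod_eq_of_lt (by omega), Nat.mod_eq_of_lt (by omega)] at this
  exact ZMod.val_injective p this

/-- the number of solutions of a non-trivial linear equation -/
theorem card_ker [Fact M.Prime] (c : Fin n → ZMod M) (hc : c ≠ 0) :
    M * (univ.filter fun r : Fin n → ZMod M => ∑ i, r i * c i = 0).card ≤ M ^ n := by
  classical
  obtain ⟨j, hj⟩ := Function.ne_iff.mp hc
  have hj' : c j ≠ 0 := hj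
  have key : ((univ : Finset (ZMod M)) ×ˢ
      (univ.filter fun r : Fin n → ZMod M => ∑ i, r i * c i = 0)).card
      ≤ (univ : Finset (Fin n → ZMod M)).card := by
    refine card_le_card_of_injOn (fun q => q.2 + Pi.single j q.1) (fun _ _ => by simp) ?_
    rintro ⟨t, r⟩ h ⟨t', r'⟩ h' heq
    simp only [coe_product, Set.mem_prod, coe_univ, Set.mem_univ, true_and, coe_filter, mem_univ,
      Set.mem_ofPred_eq] at h h'
    have hsum : ∀ (r : Fin n → ZMod M) (t : ZMod M),
        ∑ i, (r + Pi.single j t : Fin n → ZMod M) i * c i = ∑ i, r i * c i + t * c j := by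
      intro r t
      simp only [Pi.add_apply, add_mul, sum_add_distrib]
      congr 1
      rw [sum_eq_single j]
      · simp
      · intro b _ hb; simp [hb]
      · intro h; exact absurd (mem_univ j) h
    have h1 := hsum r t
    have h2 := hsum r' t'
    simp only at heq
    rw [heq, h2, h, h', zero_add, zero_add] at h1
    have ht : t' = t := mul_right_cancel₀ hj' h1
    subst ht
    have hr : r = r' := add_right_cancel heq
    rw [hr]
  simpa [card_product, ZMod.card] using key

/-- parameters selecting a line -/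
theorem card_sel [NeZero M] (δ : ZMod p) (N : ℕ) (hN : N ≤ M) (S : Finset ℕ)
    (hS : S ⊆ range N) (l : Ln p n) [DecidablePred fun ω => Sel (M := M) δ S ω l] :
    M ^ n * S.card ≤
      (univ.filter fun ω : (Fin n → ZMod M) × ZMod M × ZMod M => Sel δ S ω l).card := by
  classical
  have : ((univ : Finset (Fin n → ZMod M)) ×ˢ S).card ≤
      (univ.filter fun ω : (Fin n → ZMod M) × ZMod M × ZMod M => Sel δ S ω l).card := by
    refine card_le_card_of_injOn
      (fun q => (q.1, (q.2 : ZMod M) - U q.1 l.1, (q.2 : ZMod M) - W δ q.1 (pz δ l))) ?_ ?_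
    · rintro ⟨r, s⟩ h
      have hs : s ∈ S := by simpa using h
      simp only [coe_filter, mem_univ, true_and, Set.mem_ofPred_eq]
      exact ⟨s, hs, by simp, by simp⟩
    · rintro ⟨r, s⟩ h ⟨r', s'⟩ h' heq
      have hs : s ∈ S := by simpa using h
      have hs' : s' ∈ S := by simpa using h'
      simp only [Prod.mk.injEq] at heq
      obtain ⟨rfl, h2, -⟩ := heq
      have h3 : (s : ZMod M) = s' := by simpa using h2
      have h4 := (ZMod.natCast_eq_natCast_iff' _ _ _).mp h3
      have := mem_range.mp (hS hs)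
      have := mem_range.mp (hS hs')
      rw [Nat.mod_eq_of_lt (by omega), Nat.mod_eq_of_lt (by omega)] at h4
      rw [h4]
  simpa [card_product, ZMod.card] using this

/-- Two lines conflict if they are different and share a point in the same position. -/
def Conf (δ : ZMod p) (l m : Ln p n) : Prop :=
  l ≠ m ∧ (l.1 = m.1 ∨ py δ l = py δ m ∨ pz δ l = pz δ m)

theorem wv_inj {δ : ZMod p} (hδ : δ ≠ 0) {e f : Fin n → Bool} (h : wv δ e = wv δ f) : e = f := by
  funext i
  have := congrFun h i
  simp only [wv] at this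
  cases he : e i <;> cases hf : f i <;> simp_all

/-- parameters selecting two conflicting lines -/
theorem card_bad [Fact M.Prime] [NeZero p] (hp : ∀ a : ZMod p, a + a = 0 → a = 0)
    (hM2 : (2 : ZMod M) ≠ 0) (hpM : p ≤ M) {δ : ZMod p} (hδ : δ ≠ 0) (S : Finset ℕ) (l m : Ln p n)
    (hlm : Conf δ l m) [DecidablePred fun ω => Sel (M := M) δ S ω l ∧ Sel (M := M) δ S ω m] :
    M * (univ.filter fun ω : (Fin n → ZMod M) × ZMod M × ZMod M =>
      Sel δ S ω l ∧ Sel δ S ω m).card ≤ M ^ n * S.card := by
  classical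
  obtain ⟨hne, hshare⟩ := hlm
  -- a non-trivial equation satisfied by r
  obtain ⟨c, hc, hcr⟩ : ∃ c : Fin n → ZMod M, c ≠ 0 ∧
      ∀ ω : (Fin n → ZMod M) × ZMod M × ZMod M, Sel δ S ω l → Sel δ S ω m →
        ∑ i, ω.1 i * c i = 0 := by
    have eqU : ∀ ω : (Fin n → ZMod M) × ZMod M × ZMod M, Sel δ S ω l → Sel δ S ω m →
        U ω.1 l.1 = U ω.1 m.1 ∨ W δ ω.1 (pz δ l) = W δ ω.1 (pz δ m) := by
      rintro ω ⟨s, -, h1, h2⟩ ⟨t, -, h3, h4⟩
      rcases hshare with h | h | h
      · left; rw [h]
      · left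
        have hy : V δ ω.1 (py δ l) = V δ ω.1 (py δ m) := by rw [h]
        rw [← UWV, ← UWV] at hy
        have hst : (2 : ZMod M) * s = 2 * t := by
          calc (2 : ZMod M) * s = (U ω.1 l.1 + ω.2.1) + (W δ ω.1 (pz δ l) + ω.2.2) := by
                rw [h1, h2]; ring
            _ = (U ω.1 l.1 + W δ ω.1 (pz δ l)) + ω.2.1 + ω.2.2 := by ring
            _ = (U ω.1 m.1 + ω.2.1) + (W δ ω.1 (pz δ m) + ω.2.2) := by rw [hy]; ring
            _ = 2 * t := by rw [h3, h4]; ring
        have hst' := mul_left_cancel₀ hM2 hst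
        have : U ω.1 l.1 + ω.2.1 = U ω.1 m.1 + ω.2.1 := by rw [h1, h3, hst']
        exact add_right_cancel this
      · right; rw [h]
    -- the two alternatives, depending on the lines only
    by_cases hx : l.1 = m.1
    · -- then the third points differ
      have hz : pz δ l ≠ pz δ m := by
        intro h
        apply hne
        refine Prod.ext hx (wv_inj hδ ?_)
        funext i
        have := congrFun h i
        simp only [pz, Pi.add_apply, hx] at this
        have h2 : (wv δ l.2 i - wv δ m.2 i) + (wv δ l.2 i - wv δ m.2 i) = 0 := by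
          linear_combination this
        exact sub_eq_zero.mp (hp _ h2)
      refine ⟨fun i => g M (pz δ l i - δ) - g M (pz δ m i - δ), ?_, ?_⟩
      · intro h0
        apply hz
        funext i
        have := congrFun h0 i
        simp only [Pi.zero_apply, sub_eq_zero] at this
        exact sub_left_injective (g_inj hpM this)
      · intro ω h1 h2
        have hs : W δ ω.1 (pz δ l) = W δ ω.1 (pz δ m) := by
          obtain ⟨s, -, a1, a2⟩ := h1
          obtain ⟨t, -, b1, b2⟩ := h2
          rw [← hx, a1] at b1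
          rw [← b1] at b2
          exact add_right_cancel (a2.trans b2.symm)
        unfold W at hs
        simp only [mul_sub, sum_sub_distrib]
        rw [hs, sub_self]
    · refine ⟨fun i => g M (l.1 i) - g M (m.1 i), ?_, ?_⟩
      · intro h0
        apply hx
        funext i
        have := congrFun h0 i
        simp only [Pi.zero_apply, sub_eq_zero] at this
        exact g_inj hpM this
      · intro ω h1 h2
        have hs : U ω.1 l.1 = U ω.1 m.1 := by
          rcases eqU ω h1 h2 with h | h
          · exact h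
          · obtain ⟨s, -, a1, a2⟩ := h1
            obtain ⟨t, -, b1, b2⟩ := h2
            rw [← h, a2] at b2
            rw [← b2] at b1
            exact add_right_cancel (a1.trans b1.symm)
        unfold U at hs
        simp only [mul_sub, sum_sub_distrib]
        rw [hs, sub_self]
  have hle : (univ.filter fun ω : (Fin n → ZMod M) × ZMod M × ZMod M =>
      Sel δ S ω l ∧ Sel δ S ω m).card ≤
      ((univ.filter fun r : Fin n → ZMod M => ∑ i, r i * c i = 0) ×ˢ S).card := by
    have hch : ∀ ω : (Fin n → ZMod M) × ZMod M × ZMod M, ∃ s : ℕ, Sel δ S ω l →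
        (s ∈ S ∧ U ω.1 l.1 + ω.2.1 = (s : ZMod M) ∧ W δ ω.1 (pz δ l) + ω.2.2 = (s : ZMod M)) := by
      intro ω
      by_cases h : Sel δ S ω l
      · obtain ⟨s, hs, h1, h2⟩ := h
        exact ⟨s, fun _ => ⟨hs, h1, h2⟩⟩
      · exact ⟨0, fun h' => absurd h' h⟩
    choose f hf using hch
    refine card_le_card_of_injOn (fun ω => (ω.1, f ω)) ?_ ?_
    · intro ω hω
      simp only [coe_filter, mem_univ, true_and, Set.mem_ofPred_eq] at hω
      simp only [coe_product, coe_filter, mem_univ, true_and, Set.mem_prod, Set.mem_ofPred_eq,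
        mem_coe]
      exact ⟨hcr ω hω.1 hω.2, (hf ω hω.1).1⟩
    · rintro ω hω ω' hω' heq
      simp only [coe_filter, mem_univ, true_and, Set.mem_ofPred_eq] at hω hω'
      simp only [Prod.mk.injEq] at heq
      obtain ⟨h1, h2⟩ := heq
      obtain ⟨-, a1, a2⟩ := hf ω hω.1
      obtain ⟨-, b1, b2⟩ := hf ω' hω'.1
      rw [← h1, ← h2, ← a1] at b1
      rw [← h1, ← h2, ← a2] at b2
      exact Prod.ext h1 (Prod.ext (add_left_cancel b1).symm (add_left_cancel b2).symm)
  calc M * (univ.filter fun ω : (Fin n → ZMod M) × ZMod M × ZMod M =>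
        Sel δ S ω l ∧ Sel δ S ω m).card
      ≤ M * ((univ.filter fun r : Fin n → ZMod M => ∑ i, r i * c i = 0) ×ˢ S).card :=
        Nat.mul_le_mul_left _ hle
    _ = (M * (univ.filter fun r : Fin n → ZMod M => ∑ i, r i * c i = 0).card) * S.card := by
        rw [card_product]; ring
    _ ≤ M ^ n * S.card := Nat.mul_le_mul_right _ (card_ker c hc)

end Helper64.RB.Tri
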